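import Pool.Agent.Lib.MP_c6e9f4_al.Exp.A2
import Pool.Agent.Lib.MP_c6e9f4_al.Basic

/-!
# Definitions for the bounds on nilpotent and solvable subgroups of symmetric groups
-/

set_option autoImplicit false

namespace Pool.Agent.Lib.MP_c6e9f4_al.Nil

open Pool.Agent.Lib.MP_c6e9f4_al.Exp (Bad DB)

/-- The ordered Davenport constant of `G` is at most `d`: every list without a nonempty sublist of
product one has length at most `d - 1`. -/
def DU (G : Type) [Group G] (d : ℝ) : Prop := DB (Set.univ : Set G) d

end Pool.Agent.Lib.MP_c6e9f4_al.Nil
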