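import Pool.Agent.Lib.MP_c6e9f4_al.Nil.NDefs

/-!
ROW B1 (120 lines). Basic properties of `DU G d` (see NDefs; `Bad`, `DB` in Exp/Defs, `derive` in Exp/A2).
* one_le: the empty list is bad. mono: clear.
* of_injective: a bad list in `H` maps to a bad list in `G` (a sublist of `l.map f` is `s.map f`,
  `List.sublist_map_iff`).
* of_surjective: lift a bad list of `K` entrywise to `G` (`l'.map f = l`); if a nonempty sublist of `l'` had
  product 1, so would its image; hence `l'` is bad.
* ext: apply `Exp.derive` with `H := ⊤`, `Q := (f.ker : Set G)`, `d := a`: a list `p` in `G` no nonempty sublist of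
  which has its product in `f.ker` has a bad image `p.map f`, so `p.length + 1 ≤ a`. For a bad list `l` of `G` one gets
  a derived list `z`, bad by `Der.bad`, with entries in `f.ker`, so `z.length + 1 ≤ b` (lift to the subtype), and
  `l.length + 1 ≤ a * (z.length + 1) ≤ a * b`.
* of_subsingleton: a bad list is empty (`[g]` has product 1).
* card: the prefix products `(l.take i).prod`, `i ≤ l.length`, of a bad list are pairwise different (otherwise the
  block between has product 1), so `l.length + 1 ≤ Nat.card G`.
* pi: induction on the finite index type (e.g. `Finite.induction_empty_option` or `Fintype.induction_empty_option`,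
  or induction over a finset `s` with the statement for `∀ i : s, G i`), with `ext` for the projection.
-/

set_option autoImplicit false

namespace Pool.Agent.Lib.MP_c6e9f4_al.Nil

open Pool.Agent.Lib.MP_c6e9f4_al.Exp (Bad DB Der derive)

private theorem B1_bad_nil (G : Type) [Group G] : Bad ([] : List G) := by
  intro s hs hne
  exact absurd (List.sublist_nil.1 hs) hne

private theorem B1_bad_map {G H : Type} [Group G] [Group H] (f : H →* G) (hf : Function.Injective f) {l : List H}
    (hl : Bad l) : Bad (l.map f) := by
  intro s hs hne h1
  obtain ⟨t, ht, rfl⟩ := List.sublist_map_iff.1 hs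
  have hne' : t ≠ [] := by
    rintro rfl
    exact hne rfl
  refine hl t ht hne' (hf ?_)
  rw [map_list_prod, h1, map_one]

private theorem B1_bad_of_map {G K : Type} [Group G] [Group K] (f : G →* K) {l : List G}
    (hl : Bad (l.map f)) : Bad l := by
  intro s hs hne h1
  refine hl (s.map f) (hs.map f) (fun h => hne (List.map_eq_nil_iff.1 h)) ?_
  rw [← map_list_prod, h1, map_one]

theorem DU.one_le {G : Type} [Group G] {d : ℝ} (h : DU G d) : 1 ≤ d := by
  have := h [] (fun g _ => Set.mem_univ g) (B1_bad_nil G)
  simpa using this

theorem DU.mono {G : Type} [Group G] {d d' : ℝ} (h : DU G d) (hd : d ≤ d') : DU G d' :=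
  fun l hl hb => (h l hl hb).trans hd

theorem DU.of_injective {G H : Type} [Group G] [Group H] {d : ℝ} (h : DU G d) (f : H →* G)
    (hf : Function.Injective f) : DU H d := by
  intro l _ hl
  have := h (l.map f) (fun g _ => Set.mem_univ g) (B1_bad_map f hf hl)
  rwa [List.length_map] at this

theorem DU.of_surjective {G K : Type} [Group G] [Group K] {d : ℝ} (h : DU G d) (f : G →* K)
    (hf : Function.Surjective f) : DU K d := by
  intro l _ hl
  obtain ⟨l', rfl⟩ := (List.map_surjective_iff.2 hf) l
  have := h l' (fun g _ => Set.mem_univ g) (B1_bad_of_map f hl)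
  rwa [List.length_map]

theorem DU.ext {G K : Type} [Group G] [Group K] (f : G →* K) {a b : ℝ} (hK : DU K a)
    (hN : DU f.ker b) : DU G (a * b) := by
  intro l _ hl
  obtain ⟨z, hz, hz1, hz2⟩ := derive (⊤ : Subgroup G) (f.ker : Set G) a (by
    intro p _ hp
    have h1 : Bad (p.map f) := by
      intro s hs hne h2
      obtain ⟨t, ht, rfl⟩ := List.sublist_map_iff.1 hs
      have hne' : t ≠ [] := by
        rintro rfl
        exact hne rfl
      refine hp t ht hne' ?_
      show t.prod ∈ f.ker
      rw [MonoidHom.mem_ker, map_list_prod, h2]
    have := hK (p.map f) (fun g _ => Set.mem_univ g) h1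
    rwa [List.length_map] at this) l (fun g _ => Subgroup.mem_top g)
  have hzb := hz.bad hl
  obtain ⟨w, hw⟩ : ∃ w : List f.ker, w.map (fun g : f.ker => (g : G)) = z :=
    ⟨z.attach.map (fun g => (⟨g.1, (hz1 g.1 g.2).2⟩ : f.ker)), by
      rw [List.map_map]
      exact z.attach_map_subtype_val⟩
  have hwb : Bad w := by
    refine B1_bad_of_map f.ker.subtype ?_
    have : w.map f.ker.subtype = z := hw
    rw [this]
    exact hzb
  have h3 := hN w (fun g _ => Set.mem_univ g) hwb
  have h4 : w.length = z.length := by rw [← hw, List.length_map]
  rw [h4] at h3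
  exact hz2.trans (mul_le_mul_of_nonneg_left h3 (zero_le_one.trans hK.one_le))

theorem DU.of_subsingleton (G : Type) [Group G] [Subsingleton G] : DU G 1 := by
  intro l _ hl
  cases l with
  | nil => simp
  | cons g t =>
    exfalso
    refine hl [g] (by simp) (by simp) (Subsingleton.elim _ _)

theorem DU.card (G : Type) [Group G] [Finite G] : DU G (Nat.card G : ℝ) := by
  intro l _ hl
  have key : ∀ i j : ℕ, i < j → j ≤ l.length → (l.take i).prod ≠ (l.take j).prod := by
    intro i j hij hj h
    have h1 : l.take j = l.take i ++ (l.drop i).take (j - i) := by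
      conv_lhs => rw [show j = i + (j - i) by omega]
      rw [List.take_add]
    rw [h1, List.prod_append] at h
    have h2 : ((l.drop i).take (j - i)).prod = 1 := by
      have := mul_eq_left.1 h.symm
      exact this
    refine hl _ ((List.take_sublist _ _).trans (List.drop_sublist _ _)) ?_ h2
    intro h3
    have h4 := congrArg List.length h3
    rw [List.length_take, List.length_drop, List.length_nil] at h4
    omega
  have hinj : Function.Injective (fun i : Fin (l.length + 1) => (l.take i).prod) := by
    intro i j h
    rcases lt_trichotomy (i : ℕ) (j : ℕ) with h1 | h1 | h1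
    · exact absurd h (key i j h1 (by omega))
    · exact Fin.ext h1
    · exact absurd h.symm (key j i h1 (by omega))
  have h1 := Nat.card_le_card_of_injective _ hinj
  rw [Nat.card_fin] at h1
  exact_mod_cast h1

private theorem B1_pi (ι : Type) [Fintype ι] : ∀ (G : ι → Type) (_ : ∀ i, Group (G i)) (d : ι → ℝ),
    (∀ i, DU (G i) (d i)) → DU (∀ i, G i) (∏ i, d i) := by
  refine Fintype.induction_empty_option (P := fun (ι : Type) _ => ∀ (G : ι → Type) (_ : ∀ i, Group (G i)) (d : ι → ℝ),
    (∀ i, DU (G i) (d i)) → DU (∀ i, G i) (∏ i, d i)) ?_ ?_ ?_ ι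
  · intro α β _ e ih G _ d h
    let F : (∀ b, G b) →* (∀ a, G (e a)) :=
      { toFun := fun x a => x (e a)
        map_one' := rfl
        map_mul' := fun _ _ => rfl }
    have hF : Function.Injective F := by
      intro x y hxy
      funext b
      obtain ⟨a, rfl⟩ := e.surjective b
      exact congrFun hxy a
    letI : Fintype α := Fintype.ofEquiv β e.symm
    have h1 := (ih (fun a => G (e a)) (fun a => inferInstance) (fun a => d (e a)) (fun a => h (e a))).of_injective F hF
    rwa [Equiv.prod_comp e d] at h1
  · intro G _ d _
    haveI : Subsingleton (∀ i : PEmpty, G i) := ⟨fun x y => funext fun i => i.elim⟩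
    have h1 := DU.of_subsingleton (∀ i : PEmpty, G i)
    simpa using h1
  · intro α _ ih G _ d h
    rw [Fintype.prod_option]
    refine DU.ext (Pi.evalMonoidHom G none) (h none) ?_
    let F : (Pi.evalMonoidHom G none).ker →* (∀ a, G (some a)) :=
      { toFun := fun x a => x.1 (some a)
        map_one' := rfl
        map_mul' := fun _ _ => rfl }
    have hF : Function.Injective F := by
      intro x y hxy
      refine Subtype.ext (funext fun i => ?_)
      cases i with
      | none =>
        have hx : x.1 none = 1 := x.2
        have hy : y.1 none = 1 := y.2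
        rw [hx, hy]
      | some a => exact congrFun hxy a
    exact (ih (fun a => G (some a)) (fun a => inferInstance) (fun a => d (some a)) (fun a => h (some a))).of_injective F hF

theorem DU.pi {ι : Type} [Fintype ι] (G : ι → Type) [∀ i, Group (G i)] (d : ι → ℝ)
    (h : ∀ i, DU (G i) (d i)) : DU (∀ i, G i) (∏ i, d i) :=
  B1_pi ι G inferInstance d h

end Pool.Agent.Lib.MP_c6e9f4_al.Nil
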