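import Mathlib

/-!
ROW L1 (80 lines). Elementary upper bound for the order of a permutation.
Proof. `orderOf σ = σ.cycleType.lcm` (`Equiv.Perm.lcm_cycleType`), equal to the lcm of the set `T = σ.cycleType.toFinset` of
different cycle lengths (`Multiset.lcm_dedup` or divisibility: the product over `T` is divisible by every cycle length),
so `orderOf σ ≤ ∏ c ∈ T, c ≤ n ^ T.card`. The elements of `T` are different, at least 2 (`Equiv.Perm.two_le_of_mem_cycleType`) and
have sum at most `σ.cycleType.sum = σ.support.card ≤ n` (`Equiv.Perm.sum_cycleType`). A set of `t` different naturals has sum at least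
`t (t - 1) / 2`, different positive ones at least `t (t + 1) / 2` (`Finset.sum_range_id_le_sum..` or induction), so `t ^ 2 ≤ 2 n`, `t ≤ Nat.sqrt (2 n)`.
`n = 0`: the group is trivial, `0 ^ 0 = 1`.
-/

set_option autoImplicit false

namespace Pool.Agent.Lib.MP_c6e9f4_al.Nil

/-- A set of `t` different positive naturals has sum at least `t (t + 1) / 2`. -/
private theorem L1_sum (T : Finset ℕ) (h : ∀ c ∈ T, 1 ≤ c) :
    T.card * (T.card + 1) ≤ 2 * ∑ c ∈ T, c := by
  induction T using Finset.induction_on_max with
  | empty => simp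
  | insert a s hs ih =>
    have ha : a ∉ s := fun hmem => lt_irrefl a (hs a hmem)
    have ih' := ih (fun c hc => h c (Finset.mem_insert_of_mem hc))
    have h1 : 1 ≤ a := h a (Finset.mem_insert_self a s)
    have hsub : s ⊆ Finset.Icc 1 (a - 1) := by
      intro c hc
      rw [Finset.mem_Icc]
      have := hs c hc
      exact ⟨h c (Finset.mem_insert_of_mem hc), by omega⟩
    have hcard : s.card ≤ a - 1 := by
      calc s.card ≤ (Finset.Icc 1 (a - 1)).card := Finset.card_le_card hsub
        _ = a - 1 := by simp
    rw [Finset.card_insert_of_notMem ha, Finset.sum_insert ha]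
    have h2 : s.card + 1 ≤ a := by omega
    nlinarith

theorem orderOf_le (n : ℕ) (σ : Equiv.Perm (Fin n)) : orderOf σ ≤ n ^ Nat.sqrt (2 * n) := by
  rcases Nat.eq_zero_or_pos n with rfl | hn
  · have h1 : σ = 1 := Subsingleton.elim _ _
    subst h1
    simp
  · set T : Finset ℕ := σ.cycleType.toFinset with hT
    have hdvd : orderOf σ ∣ ∏ c ∈ T, c := by
      rw [← Equiv.Perm.lcm_cycleType]
      apply Multiset.lcm_dvd.2
      intro b hb
      exact Finset.dvd_prod_of_mem (fun c => c) (Multiset.mem_toFinset.2 hb)
    have h2 : ∀ c ∈ T, 2 ≤ c := fun c hc =>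
      Equiv.Perm.two_le_of_mem_cycleType (Multiset.mem_toFinset.1 hc)
    have hsum : ∑ c ∈ T, c ≤ n := by
      have hle : T.val ≤ σ.cycleType := Multiset.dedup_le _
      obtain ⟨u, hu⟩ := Multiset.le_iff_exists_add.1 hle
      have hs : σ.cycleType.sum = T.val.sum + u.sum := by rw [hu, Multiset.sum_add]
      have hs2 : ∑ c ∈ T, c = T.val.sum := by
        rw [← Finset.sum_map_val]
        simp
      have hs3 : σ.cycleType.sum = σ.support.card := Equiv.Perm.sum_cycleType σ
      have hs4 : σ.support.card ≤ n := by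
        simpa using Finset.card_le_univ σ.support
      omega
    have hcn : ∀ c ∈ T, c ≤ n := fun c hc =>
      (Finset.single_le_sum (f := fun c : ℕ => c) (fun _ _ => Nat.zero_le _) hc).trans hsum
    have hcard : T.card ≤ Nat.sqrt (2 * n) := by
      rw [Nat.le_sqrt]
      have h3 := L1_sum T (fun c hc => by have := h2 c hc; omega)
      nlinarith
    calc orderOf σ ≤ ∏ c ∈ T, c :=
          Nat.le_of_dvd (Finset.prod_pos (fun c hc => by have := h2 c hc; omega)) hdvd
      _ ≤ ∏ _c ∈ T, n := Finset.prod_le_prod' hcn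
      _ = n ^ T.card := by simp
      _ ≤ n ^ Nat.sqrt (2 * n) := Nat.pow_le_pow_right hn hcard

end Pool.Agent.Lib.MP_c6e9f4_al.Nil
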