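import Pool.Agent.Lib.MP_c6e9f4_al.Nil.E2
import Pool.Agent.Lib.MP_c6e9f4_al.Nil.L1

/-!
ROW L2 (100 lines). Abelian quotients of subgroups of `S_n`.
Proof. `A := Abelianization H`, finite commutative. `e := Monoid.exponent A`; for a finite commutative group there is `a` with
`orderOf a = e` (`Monoid.exists_orderOf_eq_exponent` with `Monoid.ExponentExists.of_finite`), `a = Abelianization.of h`, so
`e = orderOf a ∣ orderOf h = orderOf (h : Perm (Fin n)) ≤ n ^ Nat.sqrt (2 n)` (L1). Prime divisors of `Nat.card A` divide `Nat.card H`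
(quotient) and so `n!`, hence are `≤ n`. `Nat.card A ≤ n! ≤ n ^ n ≤ 2 ^ (n * n)`. E2 with `M := n * n` gives
`DU A ((n ^ 3) ^ Nat.log 2 e)`, and `Nat.log 2 e ≤ log e / log 2 ≤ √(2 n) log n / log 2`; so the logarithm of the bound is at most
`3 log n * √2 √n log n / log 2 ≤ 6.2 √n (log n)^2`.
-/

set_option autoImplicit false

namespace Pool.Agent.Lib.MP_c6e9f4_al.Nil

theorem DU_abelianization (n : ℕ) (hn : 2 ≤ n) (H : Subgroup (Equiv.Perm (Fin n))) :
    DU (Abelianization H) (Real.exp (20 * Real.sqrt n * Real.log n ^ 2)) := by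
  have : Finite (Abelianization H) := Quotient.finite _
  have hex : Monoid.ExponentExists (Abelianization H) := Monoid.ExponentExists.of_finite
  obtain ⟨a, ha⟩ := Monoid.exists_orderOf_eq_exponent hex
  obtain ⟨h, rfl⟩ := QuotientGroup.mk_surjective a
  set e := Monoid.exponent (Abelianization H) with he
  have he0 : e ≠ 0 := Monoid.exponent_ne_zero.2 hex
  have hele : e ≤ n ^ Nat.sqrt (2 * n) := by
    rw [← ha]
    have h1 : orderOf (QuotientGroup.mk h : Abelianization H) ∣ orderOf h := orderOf_map_dvd (Abelianization.of) h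
    have h2 : orderOf h = orderOf (h : Equiv.Perm (Fin n)) := (Subgroup.orderOf_coe h).symm
    exact (Nat.le_of_dvd (orderOf_pos h) h1).trans (h2.le.trans (orderOf_le n _))
  have hcard : Nat.card (Abelianization H) ∣ n.factorial := by
    have h1 : Nat.card (Abelianization H) ∣ Nat.card H := Subgroup.card_quotient_dvd_card _
    have h2 : Nat.card H ∣ Nat.card (Equiv.Perm (Fin n)) := Subgroup.card_subgroup_dvd_card H
    have h3 : Nat.card (Equiv.Perm (Fin n)) = n.factorial := by
      rw [Nat.card_eq_fintype_card, Fintype.card_perm, Fintype.card_fin]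
    rw [h3] at h2
    exact h1.trans h2
  have hp : ∀ p : ℕ, p.Prime → p ∣ Nat.card (Abelianization H) → p ≤ n := fun p hp hd =>
    (Nat.Prime.dvd_factorial hp).1 (hd.trans hcard)
  have hM : Nat.card (Abelianization H) ≤ 2 ^ (n * n) := by
    refine (Nat.le_of_dvd (Nat.factorial_pos n) hcard).trans ((Nat.factorial_le_pow n).trans ?_)
    rw [pow_mul]
    exact Nat.pow_le_pow_left (Nat.lt_two_pow_self).le n
  have key := DU_comm n (n * n) (by omega) (by nlinarith) e (Nat.one_le_iff_ne_zero.2 he0) (Abelianization H)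
    (fun x => Monoid.pow_exponent_eq_one x) hp hM
  refine DU.mono key ?_
  have hn2 : (2 : ℝ) ≤ n := by exact_mod_cast hn
  have hn0 : (0 : ℝ) < n := by linarith
  have hl0 : 0 ≤ Real.log n := Real.log_nonneg (by linarith)
  have hs0 : 0 ≤ Real.sqrt n := Real.sqrt_nonneg _
  -- the logarithm
  have g1 : (Nat.log 2 e : ℝ) * Real.log 2 ≤ Real.log e := by
    have h1 : ((2 ^ Nat.log 2 e : ℕ) : ℝ) ≤ (e : ℝ) := by exact_mod_cast Nat.pow_log_le_self 2 he0
    have h2 := Real.log_le_log (by positivity) h1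
    push_cast at h2
    rwa [Real.log_pow] at h2
  have g2 : Real.log e ≤ Nat.sqrt (2 * n) * Real.log n := by
    have he1 : (0 : ℝ) < e := by exact_mod_cast Nat.pos_of_ne_zero he0
    have h1 : (e : ℝ) ≤ ((n ^ Nat.sqrt (2 * n) : ℕ) : ℝ) := by exact_mod_cast hele
    have h2 := Real.log_le_log he1 h1
    push_cast at h2
    rwa [Real.log_pow] at h2
  have g3 : (Nat.sqrt (2 * n) : ℝ) ≤ 3 / 2 * Real.sqrt n := by
    have h1 : (Nat.sqrt (2 * n) : ℝ) ≤ Real.sqrt ((2 * n : ℕ) : ℝ) := Real.nat_sqrt_le_real_sqrt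
    refine h1.trans ?_
    rw [Real.sqrt_le_left (by positivity)]
    rw [mul_pow, Real.sq_sqrt hn0.le]
    push_cast
    linarith
  have g4 : (Nat.log 2 e : ℝ) * Real.log 2 ≤ 3 / 2 * Real.sqrt n * Real.log n :=
    g1.trans (g2.trans (mul_le_mul_of_nonneg_right g3 hl0))
  have g5 : (1 : ℝ) / 2 < Real.log 2 := by
    have := Real.log_two_gt_d9
    linarith
  have g6 : (Nat.log 2 e : ℝ) ≤ 3 * Real.sqrt n * Real.log n := by
    have h1 : (0 : ℝ) ≤ (Nat.log 2 e : ℝ) := Nat.cast_nonneg _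
    have h2 : (Nat.log 2 e : ℝ) * (1 / 2) ≤ (Nat.log 2 e : ℝ) * Real.log 2 := mul_le_mul_of_nonneg_left g5.le h1
    linarith
  have hb : (0 : ℝ) < ((n * (n * n) : ℕ) : ℝ) ^ Nat.log 2 e := by positivity
  rw [← Real.log_le_iff_le_exp hb, Real.log_pow]
  have g7 : Real.log ((n * (n * n) : ℕ) : ℝ) = 3 * Real.log n := by
    push_cast
    rw [Real.log_mul hn0.ne' (by positivity), Real.log_mul hn0.ne' hn0.ne']
    ring
  rw [g7]
  have g8 : (Nat.log 2 e : ℝ) * (3 * Real.log n) ≤ 3 * Real.sqrt n * Real.log n * (3 * Real.log n) :=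
    mul_le_mul_of_nonneg_right g6 (by positivity)
  refine g8.trans ?_
  have g9 : 0 ≤ Real.sqrt n * Real.log n ^ 2 := by positivity
  nlinarith

end Pool.Agent.Lib.MP_c6e9f4_al.Nil
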