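import Mathlib

/-!
ROW P1 (140 lines). The order of a primitive solvable permutation group of degree `k` is at most `k ^ (1 + log2 k)`.
Proof. If `G` is trivial the left side is 1. Otherwise let `V` be the last nontrivial term of the derived series: a nontrivial
abelian normal subgroup (`V = derivedSeries G j ≠ ⊥`, `derivedSeries G (j+1) = ⊥`, so `V` is commutative; `derivedSeries` terms are normal). `V` does not
act trivially (faithful), so it is transitive on `X` (`MulAction.IsPreprimitive` implies `MulAction.IsQuasiPreprimitive`: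
nontrivial normal subgroups of a primitive group are transitive). Fix `x : X`. `V` is regular: if `v x = x` then `v (w x) = w (v x) = w x`
for all `w`, so `v = 1`; so `Nat.card V = k`. The stabiliser `G_x` acts on `V` by conjugation, faithfully: if `g` fixes `x` and centralises `V` then
`g (v x) = v (g x) = v x`, so `g = 1`. So `Nat.card G_x ≤ Nat.card (MulAut V)`, and `V` has a generating set `S` with at most `Nat.log 2 k` elements
(`exists_gen`), an automorphism is determined by its values on `S`: at most `k ^ Nat.log 2 k` automorphisms. `Nat.card G = k * Nat.card G_x` (orbit-stabiliser).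
exists_gen: choose a finite set `S` with `2 ^ S.card ≤ Nat.card (closure S)` and `closure S` maximal; if `closure S ≠ ⊤`
adding an element outside at least doubles the closure (Lagrange).
-/

set_option autoImplicit false

namespace Pool.Agent.Lib.MP_c6e9f4_al.Nil

private theorem p1_grow (V : Type) [Group V] [Finite V] (k : ℕ) :
    ∃ S : Finset V, S.card ≤ k ∧ (Subgroup.closure (S : Set V) = ⊤ ∨ 2 ^ k ≤ Nat.card (Subgroup.closure (S : Set V))) := by
  classical
  induction k with
  | zero => exact ⟨∅, by simp, Or.inr (by simpa using Nat.card_pos)⟩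
  | succ k ih =>
    obtain ⟨S, hS, h⟩ := ih
    by_cases ht : Subgroup.closure (S : Set V) = ⊤
    · exact ⟨S, by omega, Or.inl ht⟩
    · have h2 := h.resolve_left ht
      obtain ⟨g, hg⟩ : ∃ g : V, g ∉ Subgroup.closure (S : Set V) := by
        by_contra hcon
        push Not at hcon
        exact ht ((Subgroup.eq_top_iff' _).mpr hcon)
      have hle : Subgroup.closure (S : Set V) ≤ Subgroup.closure ((insert g S : Finset V) : Set V) :=
        Subgroup.closure_mono (by simp)
      have hmem : g ∈ Subgroup.closure ((insert g S : Finset V) : Set V) :=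
        Subgroup.subset_closure (by simp)
      refine ⟨insert g S, (Finset.card_insert_le _ _).trans (by omega), Or.inr ?_⟩
      obtain ⟨q, hq⟩ := Subgroup.card_dvd_of_le hle
      have hpos : 0 < Nat.card (Subgroup.closure ((insert g S : Finset V) : Set V)) := Nat.card_pos
      have hq0 : q ≠ 0 := by rintro rfl; omega
      have hq1 : q ≠ 1 := by
        rintro rfl
        apply hg
        rw [Subgroup.eq_of_le_of_card_ge hle (by rw [hq, mul_one])]
        exact hmem
      rw [hq, pow_succ]
      exact Nat.mul_le_mul h2 (by omega)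

theorem exists_gen (V : Type) [Group V] [Finite V] :
    ∃ S : Finset V, S.card ≤ Nat.log 2 (Nat.card V) ∧ Subgroup.closure (S : Set V) = ⊤ := by
  obtain ⟨S, hS, h⟩ := p1_grow V (Nat.log 2 (Nat.card V))
  refine ⟨S, hS, ?_⟩
  by_contra ht
  have h2 := h.resolve_left ht
  obtain ⟨q, hq⟩ := Subgroup.card_subgroup_dvd_card (Subgroup.closure (S : Set V))
  have hpos : 0 < Nat.card V := Nat.card_pos
  have hq0 : q ≠ 0 := by rintro rfl; omega
  have hq1 : q ≠ 1 := by
    rintro rfl
    exact ht (Subgroup.eq_top_of_card_eq _ (by rw [hq, mul_one]))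
  have h3 := Nat.lt_pow_succ_log_self (b := 2) (by norm_num) (Nat.card V)
  have h4 : 2 ^ Nat.log 2 (Nat.card V) * 2 ≤ Nat.card V := by
    conv_rhs => rw [hq]
    exact Nat.mul_le_mul h2 (by omega)
  rw [Nat.succ_eq_add_one, pow_succ] at h3
  omega

theorem card_le_of_primitive (G X : Type) [Group G] [Finite G] [Fintype X] [Nonempty X]
    [MulAction G X] [FaithfulSMul G X] [MulAction.IsPreprimitive G X] [Group.IsSolvable G] :
    Nat.card G ≤ Fintype.card X ^ (1 + Nat.log 2 (Fintype.card X)) := by
  classical
  have hX : 0 < Fintype.card X := Fintype.card_pos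
  by_cases hG : Subsingleton G
  · rw [Nat.card_of_subsingleton (1 : G)]
    exact Nat.one_le_pow _ _ hX
  have hex : ∃ n, derivedSeries G n = ⊥ := Group.IsSolvable.solvable
  obtain ⟨j, hj, hV⟩ : ∃ j, derivedSeries G j ≠ ⊥ ∧ derivedSeries G (j + 1) = ⊥ := by
    have h0 : Nat.find hex ≠ 0 := by
      intro h
      have h1 := Nat.find_spec hex
      rw [h, derivedSeries_zero] at h1
      apply hG
      constructor
      intro a b
      have ha : a ∈ (⊥ : Subgroup G) := by rw [← h1]; trivial
      have hb : b ∈ (⊥ : Subgroup G) := by rw [← h1]; trivial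
      rw [Subgroup.mem_bot.mp ha, Subgroup.mem_bot.mp hb]
    obtain ⟨j, hj⟩ := Nat.exists_eq_succ_of_ne_zero h0
    refine ⟨j, Nat.find_min hex (by omega), ?_⟩
    rw [← Nat.succ_eq_add_one, ← hj]
    exact Nat.find_spec hex
  obtain ⟨V, hVdef⟩ : ∃ V : Subgroup G, V = derivedSeries G j := ⟨_, rfl⟩
  have hVn : V.Normal := by rw [hVdef]; exact derivedSeries_normal G j
  have hV0 : V ≠ ⊥ := by rw [hVdef]; exact hj
  have hcomm : ∀ a ∈ V, ∀ b ∈ V, a * b = b * a := by
    rw [derivedSeries_succ, ← hVdef, Subgroup.commutator_eq_bot_iff_le_centralizer] at hV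
    intro a ha b hb
    have := Subgroup.mem_centralizer_iff.mp (hV hb) a ha
    exact this
  obtain ⟨x⟩ := ‹Nonempty X›
  have htr : MulAction.IsPretransitive V X := by
    refine MulAction.IsQuasiPreprimitive.isPretransitive_of_normal (N := V) ?_
    intro hfix
    apply hV0
    rw [eq_bot_iff]
    intro v hv
    rw [Subgroup.mem_bot]
    apply FaithfulSMul.eq_of_smul_eq_smul (α := X)
    intro y
    have hy : y ∈ MulAction.fixedPoints V X := by rw [hfix]; trivial
    have := MulAction.mem_fixedPoints.mp hy ⟨v, hv⟩
    rw [one_smul]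
    exact this
  have hcard : Nat.card V = Fintype.card X := by
    rw [← Nat.card_eq_fintype_card]
    refine Nat.card_congr (Equiv.ofBijective (fun v : V => v • x) ⟨?_, fun y => MulAction.exists_smul_eq V x y⟩)
    intro a b hab
    have hab' : a • x = b • x := hab
    apply Subtype.ext
    apply FaithfulSMul.eq_of_smul_eq_smul (α := X)
    intro y
    obtain ⟨v, hv⟩ := MulAction.exists_smul_eq V x y
    have e1 : (a : G) * (v : G) = (v : G) * (a : G) := hcomm a a.2 v v.2
    have e2 : (b : G) * (v : G) = (v : G) * (b : G) := hcomm b b.2 v v.2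
    have e3 : (a : G) • x = (b : G) • x := hab'
    have e4 : (v : G) • x = y := hv
    rw [← e4, smul_smul, smul_smul, e1, e2, mul_smul, mul_smul, e3]
  obtain ⟨S, hS, hS'⟩ := exists_gen V
  have hinj : Function.Injective (fun g : G => ((g • x, fun s : S => MulAut.conjNormal g (s : V)) : X × (S → V))) := by
    intro g h hgh
    have h1 : g • x = h • x := congrArg Prod.fst hgh
    have h2 : ∀ s : S, (g * (s : V) * g⁻¹ : G) = h * (s : V) * h⁻¹ := by
      intro s
      have h3 : MulAut.conjNormal g (s : V) = MulAut.conjNormal h (s : V) := congrFun (congrArg Prod.snd hgh) s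
      have h4 := congrArg (fun v : V => (v : G)) h3
      simpa [MulAut.conjNormal_apply] using h4
    obtain ⟨k, hk⟩ : ∃ k : G, k = h⁻¹ * g := ⟨_, rfl⟩
    have hkx : k • x = x := by rw [hk, mul_smul, h1, inv_smul_smul]
    have hks : ∀ v : V, k * (v : G) = (v : G) * k := by
      have hle : Subgroup.closure (S : Set V) ≤ (Subgroup.centralizer ({k} : Set G)).subgroupOf V := by
        rw [Subgroup.closure_le]
        intro s hs
        rw [SetLike.mem_coe, Subgroup.mem_subgroupOf, Subgroup.mem_centralizer_iff]
        intro y hy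
        rw [Set.mem_singleton_iff.mp hy, hk]
        have h5 := h2 ⟨s, hs⟩
        have h6 : (g * (s : G) * g⁻¹ : G) = h * (s : G) * h⁻¹ := h5
        have h7 : g * (s : G) = h * (s : G) * h⁻¹ * g := by rw [← h6]; group
        rw [mul_assoc, h7]; group
      intro v
      have hv : v ∈ Subgroup.closure (S : Set V) := by rw [hS']; trivial
      have h8 := hle hv
      rw [Subgroup.mem_subgroupOf, Subgroup.mem_centralizer_iff] at h8
      exact h8 k rfl
    have hk1 : k = 1 := by
      apply FaithfulSMul.eq_of_smul_eq_smul (α := X)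
      intro y
      obtain ⟨v, hv⟩ := MulAction.exists_smul_eq V x y
      have e4 : (v : G) • x = y := hv
      rw [← e4, smul_smul, hks v, mul_smul, hkx, one_smul]
    rw [hk1] at hk
    exact (inv_mul_eq_one.mp hk.symm).symm
  have h1 := Nat.card_le_card_of_injective _ hinj
  rw [Nat.card_prod, Nat.card_fun, hcard, Nat.card_eq_fintype_card (α := X), Nat.card_eq_fintype_card (α := S),
    Fintype.card_coe] at h1
  rw [hcard] at hS
  refine h1.trans ?_
  rw [pow_add, pow_one]
  exact Nat.mul_le_mul_left _ (Nat.pow_le_pow_right hX hS)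

end Pool.Agent.Lib.MP_c6e9f4_al.Nil
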