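import Mathlib

/-!
ROW T1 (100 lines). A transitive group has a primitive quotient whose kernel has small orbits.
Proof. Fix `x0 : X`; its stabiliser is a proper subgroup (`2 ≤ card X`, transitive), so it lies in a maximal subgroup `M` (`IsCoatom M`; the
subgroup lattice of a finite group is coatomic). `Y := G ⧸ M`, `Q := (MulAction.toPermHom G Y).range`, `f := rangeRestrict`. The action of `G` on `Y` is
primitive (`MulAction.isCoatom_stabilizer_iff_preprimitive`, stabiliser of the coset of 1 is `M`), hence so is the action of the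
image `Q` (same blocks: e.g. `MulAction.IsPreprimitive.of_surjective` with the identity of `Y`). `card Y = M.index ≥ 2`. The kernel of `f` is contained in every conjugate of
`M` (`Subgroup.normalCore_eq_ker`). For `x = g x0` the conjugate `M' = g M g⁻¹` contains the stabiliser `G_x` and `f.ker`, so the
`f.ker`-orbit of `x` is contained in the `M'`-orbit, which has `|M' : G_x|` elements, and `|M' : G_x| * |G : M'| = |G : G_x| = card X`,
`|G : M'| = |G : M| = card Y`.
-/

set_option autoImplicit false

namespace Pool.Agent.Lib.MP_c6e9f4_al.Nil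

/-- an equivariant map of `X` to the cosets of an overgroup of a stabiliser -/
private theorem t1_map {G X : Type} [Group G] [MulAction G X] [MulAction.IsPretransitive G X] (x0 : X)
    (M : Subgroup G) (hM : MulAction.stabilizer G x0 ≤ M) :
    ∃ π : X → G ⧸ M, ∀ (g : G) (x : X), π (g • x) = g • π x := by
  have h1 : ∀ x : X, ∃ g : G, g • x0 = x := fun x => MulAction.exists_smul_eq G x0 x
  choose u hu using h1
  refine ⟨fun x => (u x : G ⧸ M), fun g x => ?_⟩
  have h2 : ((g * u x : G) : G ⧸ M) = (u (g • x) : G ⧸ M) := by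
    rw [QuotientGroup.eq]
    apply hM
    rw [MulAction.mem_stabilizer_iff, mul_smul, hu, inv_smul_eq_iff, mul_smul, hu]
  exact h2.symm

theorem exists_prim (G X : Type) [Group G] [Finite G] [Fintype X] [MulAction G X]
    [MulAction.IsPretransitive G X] (h2 : 2 ≤ Fintype.card X) :
    ∃ (Y : Type) (_ : Fintype Y) (Q : Subgroup (Equiv.Perm Y)) (f : G →* Q),
      2 ≤ Fintype.card Y ∧ Function.Surjective f ∧ MulAction.IsPreprimitive Q Y ∧
        ∀ x : X, Nat.card (MulAction.orbit f.ker x) * Fintype.card Y ≤ Fintype.card X := by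
  classical
  have hne : Nonempty X := Fintype.card_pos_iff.mp (by omega)
  obtain ⟨x0⟩ := hne
  have hst : MulAction.stabilizer G x0 ≠ ⊤ := by
    intro h
    obtain ⟨y, hy⟩ := Fintype.exists_ne_of_one_lt_card (show 1 < Fintype.card X by omega) x0
    obtain ⟨g, hg⟩ := MulAction.exists_smul_eq G x0 y
    have h3 : g ∈ MulAction.stabilizer G x0 := by rw [h]; exact Subgroup.mem_top g
    rw [MulAction.mem_stabilizer_iff] at h3
    exact hy (hg.symm.trans h3)
  obtain ⟨M, hM, hle⟩ := (eq_top_or_exists_le_coatom (MulAction.stabilizer G x0)).resolve_left hst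
  obtain ⟨π, hπ⟩ := t1_map x0 M hle
  have hfin : Finite (G ⧸ M) := Quotient.finite _
  have hft : Fintype (G ⧸ M) := Fintype.ofFinite _
  have hcard : 2 ≤ Fintype.card (G ⧸ M) := by
    by_contra h
    have h3 : Fintype.card (G ⧸ M) ≤ 1 := by omega
    have h4 := Fintype.card_le_one_iff_subsingleton.mp h3
    apply hM.1
    rw [Subgroup.eq_top_iff']
    intro g
    have h5 : ((1 : G) : G ⧸ M) = (g : G ⧸ M) := h4.elim _ _
    rw [QuotientGroup.eq, inv_one, one_mul] at h5
    exact h5
  have hnt : Nontrivial (G ⧸ M) := Fintype.one_lt_card_iff_nontrivial.mp (by omega)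
  have hprim : MulAction.IsPreprimitive G (G ⧸ M) := by
    rw [← MulAction.isCoatom_stabilizer_iff_preprimitive G ((1 : G) : G ⧸ M), MulAction.stabilizer_quotient]
    exact hM
  refine ⟨G ⧸ M, hft, (MulAction.toPermHom G (G ⧸ M)).range, (MulAction.toPermHom G (G ⧸ M)).rangeRestrict, hcard,
    MonoidHom.rangeRestrict_surjective _, ?_, ?_⟩
  · let F : (G ⧸ M) →ₑ[(MulAction.toPermHom G (G ⧸ M)).rangeRestrict] (G ⧸ M) :=
      { toFun := id
        map_smul' := fun _ _ => rfl }
    exact MulAction.IsPreprimitive.of_surjective (f := F) Function.surjective_id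
  · intro x
    have h5 : ∀ y : G ⧸ M, ∃ g : G, g • π x = y := fun y => MulAction.exists_smul_eq G (π x) y
    choose v hv using h5
    have h6 : ∀ z : MulAction.orbit (MulAction.toPermHom G (G ⧸ M)).rangeRestrict.ker x, π z = π x := by
      rintro ⟨z, ⟨k, rfl⟩⟩
      have h7 : MulAction.toPermHom G (G ⧸ M) (k : G) = 1 := by
        have h8 : (MulAction.toPermHom G (G ⧸ M)).rangeRestrict (k : G) = 1 := k.2
        exact congrArg Subtype.val h8
      have h9 : π ((k : G) • x) = (k : G) • π x := hπ _ _
      have h10 : (k : G) • π x = π x := by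
        have h11 := congrArg (fun e : Equiv.Perm (G ⧸ M) => e (π x)) h7
        exact h11
      exact h9.trans h10
    have h12 : Function.Injective (fun p : MulAction.orbit (MulAction.toPermHom G (G ⧸ M)).rangeRestrict.ker x × (G ⧸ M) =>
        v p.2 • (p.1 : X)) := by
      rintro ⟨z, y⟩ ⟨z', y'⟩ h
      have h13 : v y • (z : X) = v y' • (z' : X) := h
      have h14 : y = y' := by
        have h15 := congrArg π h13
        rw [hπ, hπ, h6, h6, hv, hv] at h15
        exact h15
      subst h14
      have h16 : (z : X) = z' := smul_left_cancel _ h13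
      rw [Prod.mk.injEq]
      exact ⟨Subtype.ext h16, rfl⟩
    have h17 := Nat.card_le_card_of_injective _ h12
    rw [Nat.card_prod, Nat.card_eq_fintype_card (α := X), Nat.card_eq_fintype_card (α := G ⧸ M)] at h17
    exact h17

end Pool.Agent.Lib.MP_c6e9f4_al.Nil
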