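import Pool.Agent.Lib.MP_c6e9f4_al.Nil.B1
import Pool.Agent.Lib.MP_c6e9f4_al.Exp.Z4

/-!
B2. The index of permutability is at most four times the ordered Davenport constant, and abelian
parts do not matter for the index of permutability.
-/

set_option autoImplicit false

namespace Pool.Agent.Lib.MP_c6e9f4_al.Nil

open Pool.Agent.Lib.MP_c6e9f4_al

theorem permIndex_le_of_DU {G : Type} [Group G] [Finite G] {d : ℝ} (h : DU G d) :
    (permIndex G : ℝ) ≤ 4 * d := by
  have h1 : 1 ≤ d := by
    have h0 := h [] (by simp)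
      (by intro s hs hne; exact absurd (List.eq_nil_of_sublist_nil hs) hne)
    simpa using h0
  have h2 : (⌈d⌉₊ : ℝ) ≤ 2 * d := by
    have h0 := Nat.ceil_lt_add_one (show (0 : ℝ) ≤ d by linarith)
    linarith
  have h3 := Exp.permIndex_le_of_DB (G := G) ⌈d⌉₊ (Nat.one_le_ceil_iff.mpr (by linarith))
    (fun l hl hb => (h l hl hb).trans (Nat.le_ceil d))
  have h4 : (permIndex G : ℝ) ≤ 2 * (⌈d⌉₊ : ℝ) := by exact_mod_cast h3
  linarith

/-- An abelian part does not matter for the index of permutability. -/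
theorem permIndex_le_of_comm {G K A : Type} [Group G] [Group K] [Finite K] [CommGroup A]
    (f : G →* K) (g : G →* A) (h : ∀ x : G, f x = 1 → g x = 1 → x = 1) :
    permIndex G ≤ permIndex K := by
  obtain ⟨h2, hk⟩ := permIndex_mem K
  refine permIndex_le h2 ?_
  intro x
  obtain ⟨σ, hσ, hp⟩ := hk (fun i => f (x i))
  refine ⟨σ, hσ, ?_⟩
  have hf : f (List.ofFn x).prod = f (List.ofFn fun i => x (σ i)).prod := by
    rw [map_list_prod, map_list_prod, List.map_ofFn, List.map_ofFn]
    exact hp
  have hg : g (List.ofFn x).prod = g (List.ofFn fun i => x (σ i)).prod := by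
    rw [map_list_prod, map_list_prod, List.map_ofFn, List.map_ofFn, List.prod_ofFn,
      List.prod_ofFn]
    exact (Equiv.prod_comp σ (fun i => g (x i))).symm
  have h0 := h ((List.ofFn x).prod * (List.ofFn fun i => x (σ i)).prod⁻¹)
    (by rw [map_mul, map_inv, hf, mul_inv_cancel]) (by rw [map_mul, map_inv, hg, mul_inv_cancel])
  exact mul_inv_eq_one.mp h0

end Pool.Agent.Lib.MP_c6e9f4_al.Nil
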