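import Pool.Agent.Lib.MP_c6e9f4_al.Nil.B1

/-!
ROW E1 (120 lines). Olson / Chevalley-Warning: the Davenport constant of an elementary abelian `p`-group of rank at
most `r` is at most `r (p - 1) + 1`.
Proof. `Additive A` is a vector space over `ZMod p` (`AddCommGroup.zmodModule`), so `A` embeds into
`Multiplicative (Fin r → ZMod p)` (dimension `r'` with `p ^ r' = card A ≤ p ^ r`; pad with zeros, or work with `r'` and
use `DU.mono`). Let `l = [a_0, .., a_(L-1)]` be a bad list, `L ≥ r (p - 1) + 1`. The `r` polynomials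
`F_j = ∑ i, C (a_i j) * X i ^ (p - 1)` in `L` variables over `ZMod p` have total degree `≤ p - 1`, sum `≤ r (p-1) < L`, so by
Chevalley-Warning (`char_dvd_card_solutions_of_family`-like lemmas in Mathlib/FieldTheory/ChevalleyWarning.lean) the number
of common zeros is divisible by `p`; 0 is one of them, so there is a common zero `x ≠ 0`. Put `S = {i | x i ≠ 0}`, nonempty;
`x i ^ (p - 1) = 1` on `S` (`ZMod.pow_card_sub_one_eq_one`) and `0` outside (`p - 1 ≠ 0`), so `∑ i ∈ S, a_i = 0`: the sublist of
`l` with index set `S` has product 1. Contradiction. (Any other proof is welcome.)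
-/

set_option autoImplicit false

namespace Pool.Agent.Lib.MP_c6e9f4_al.Nil

open MvPolynomial in
/-- Chevalley-Warning for diagonal equations of degree `p - 1`. -/
private theorem E1_solve (p : ℕ) [Fact p.Prime] (d L : ℕ) (c : Fin L → Fin d → ZMod p) (h : d * (p - 1) < L) :
    ∃ x : Fin L → ZMod p, x ≠ 0 ∧ ∀ j, ∑ i, c i j * x i ^ (p - 1) = 0 := by
  classical
  have hp : 2 ≤ p := (Fact.out : p.Prime).two_le
  set F : Fin d → MvPolynomial (Fin L) (ZMod p) := fun j => ∑ i, C (c i j) * X i ^ (p - 1) with hF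
  have hev : ∀ (x : Fin L → ZMod p) (j : Fin d), eval x (F j) = ∑ i, c i j * x i ^ (p - 1) := by
    intro x j
    simp [hF]
  have hdeg : ∀ j, (F j).totalDegree ≤ p - 1 := by
    intro j
    refine totalDegree_finsetSum_le fun i _ => ?_
    refine (totalDegree_mul _ _).trans ?_
    rw [totalDegree_C, zero_add]
    refine (totalDegree_pow _ _).trans ?_
    rw [totalDegree_X, mul_one]
  have hsum : ∑ j, (F j).totalDegree < Fintype.card (Fin L) := by
    rw [Fintype.card_fin]
    refine lt_of_le_of_lt (Finset.sum_le_sum fun j _ => hdeg j) ?_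
    rw [Finset.sum_const, Finset.card_univ, Fintype.card_fin, smul_eq_mul]
    exact h
  have hdvd := char_dvd_card_solutions_of_fintype_sum_lt (K := ZMod p) (σ := Fin L) p hsum
  have h0 : ∀ j, eval (0 : Fin L → ZMod p) (F j) = 0 := by
    intro j
    rw [hev]
    refine Finset.sum_eq_zero fun i _ => ?_
    rw [Pi.zero_apply, zero_pow (by omega), mul_zero]
  rw [← @Nat.card_eq_fintype_card _ (_)] at hdvd
  have : Nonempty { x : Fin L → ZMod p // ∀ j, eval x (F j) = 0 } := ⟨⟨0, h0⟩⟩
  have h1 : 1 < Nat.card { x : Fin L → ZMod p // ∀ j, eval x (F j) = 0 } :=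
    lt_of_lt_of_le (show 1 < p by omega) (Nat.le_of_dvd Nat.card_pos hdvd)
  have : Nontrivial { x : Fin L → ZMod p // ∀ j, eval x (F j) = 0 } := Finite.one_lt_card_iff_nontrivial.1 h1
  obtain ⟨⟨x, hx⟩, hne⟩ := exists_ne (⟨0, h0⟩ : { x : Fin L → ZMod p // ∀ j, eval x (F j) = 0 })
  refine ⟨x, fun h2 => hne (Subtype.ext h2), fun j => ?_⟩
  rw [← hev]
  exact hx j

/-- Zero sums in a vector space over `ZMod p`. -/
private theorem E1_zero_sum (p : ℕ) [Fact p.Prime] {V : Type} [AddCommGroup V] [Module (ZMod p) V] [Finite V] (r L : ℕ)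
    (hr : Nat.card V ≤ p ^ r) (a : Fin L → V) (h : r * (p - 1) < L) :
    ∃ x : Fin L → ZMod p, x ≠ 0 ∧ ∑ i ∈ Finset.univ.filter (fun i => x i ≠ 0), a i = 0 := by
  classical
  have hp2 : 2 ≤ p := (Fact.out : p.Prime).two_le
  have : Module.Finite (ZMod p) V := Module.Finite.of_finite
  have hcard : Nat.card V = p ^ Module.finrank (ZMod p) V := by
    rw [Module.natCard_eq_pow_finrank (K := ZMod p) (V := V), Nat.card_zmod]
  have hdr : Module.finrank (ZMod p) V ≤ r := by
    rw [← Nat.pow_le_pow_iff_right (show 1 < p by omega), ← hcard]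
    exact hr
  let b : Module.Basis (Fin (Module.finrank (ZMod p) V)) (ZMod p) V := Module.finBasis (ZMod p) V
  obtain ⟨x, hx0, hx⟩ := E1_solve p (Module.finrank (ZMod p) V) L (fun i j => b.repr (a i) j)
    (lt_of_le_of_lt (Nat.mul_le_mul_right _ hdr) h)
  refine ⟨x, hx0, ?_⟩
  apply b.repr.injective
  rw [map_zero]
  ext j
  rw [map_sum, Finsupp.finsetSum_apply, Finsupp.zero_apply, Finset.sum_filter]
  refine Eq.trans (Finset.sum_congr rfl fun i _ => ?_) (hx j)
  by_cases hi : x i = 0
  · rw [if_neg (by simpa using hi), hi, zero_pow (by omega), mul_zero]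
  · rw [if_pos hi, ZMod.pow_card_sub_one_eq_one hi, mul_one]

theorem DU_elementary {A : Type} [CommGroup A] [Finite A] (p : ℕ) [Fact p.Prime]
    (hp : ∀ a : A, a ^ p = 1) (r : ℕ) (hr : Nat.card A ≤ p ^ r) :
    DU A ((r * (p - 1) + 1 : ℕ) : ℝ) := by
  classical
  intro l _ hl
  by_contra hcon
  have hL : r * (p - 1) < l.length := by
    by_contra h
    apply hcon
    have : l.length + 1 ≤ r * (p - 1) + 1 := by omega
    exact_mod_cast this
  letI : Module (ZMod p) (Additive A) := AddCommGroup.zmodModule (n := p) fun a => by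
    apply Additive.toMul.injective
    rw [toMul_nsmul, toMul_zero]
    exact hp _
  have : Finite (Additive A) := Finite.of_equiv A Additive.ofMul
  have hcard2 : Nat.card (Additive A) = Nat.card A := Nat.card_congr Additive.toMul
  obtain ⟨x, hx0, hx⟩ := E1_zero_sum p r l.length (by rw [hcard2]; exact hr)
    (fun i => Additive.ofMul (l.get i)) hL
  set t : List (Fin l.length) := (List.finRange l.length).filter (fun i => decide (x i ≠ 0)) with ht
  have hsub : (t.map l.get).Sublist l := by
    have h1 : ((List.finRange l.length).map l.get) = l := by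
      simp
    conv_rhs => rw [← h1]
    exact List.filter_sublist.map _
  have hne : t.map l.get ≠ [] := by
    intro h
    apply hx0
    funext i
    by_contra hi
    have h1 : i ∈ t := by
      rw [ht, List.mem_filter]
      exact ⟨List.mem_finRange i, by simpa using hi⟩
    rw [List.map_eq_nil_iff] at h
    rw [h] at h1
    exact absurd h1 List.not_mem_nil
  refine hl _ hsub hne ?_
  have hnd : t.Nodup := (List.nodup_finRange _).filter _
  have htf : t.toFinset = Finset.univ.filter fun i => x i ≠ 0 := by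
    ext i
    simp [ht]
  rw [← List.prod_toFinset _ hnd, htf]
  have h2 := congrArg Additive.toMul hx
  rw [toMul_sum, toMul_zero] at h2
  exact h2

end Pool.Agent.Lib.MP_c6e9f4_al.Nil
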