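import Pool.Agent.Lib.MP_c6e9f4_al.Nil.E1

/-!
ROW E2. Finite abelian groups with exponent `e`, order at most `2 ^ M`, all prime divisors of the order at
most `n`: `D_o ≤ (n M) ^ log2 e`.
-/

set_option autoImplicit false

namespace Pool.Agent.Lib.MP_c6e9f4_al.Nil

private theorem E2_log {e p : ℕ} (he : 2 ≤ e) (hp : 2 ≤ p) : Nat.log 2 (e / p) + 1 ≤ Nat.log 2 e := by
  have h1 : e / p ≤ e / 2 := Nat.div_le_div_left hp (by norm_num)
  have h2 : Nat.log 2 (e / p) ≤ Nat.log 2 (e / 2) := Nat.log_mono_right h1
  rw [Nat.log_div_base] at h2
  have h3 : 1 ≤ Nat.log 2 e := by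
    have := Nat.log_mono_right (b := 2) he
    have h4 : Nat.log 2 2 = 1 := by decide
    omega
  omega

theorem DU_comm (n M : ℕ) (hn : 1 ≤ n) (hM : 1 ≤ M) : ∀ e : ℕ, 1 ≤ e →
    ∀ (A : Type) [CommGroup A] [Finite A], (∀ a : A, a ^ e = 1) →
      (∀ p : ℕ, p.Prime → p ∣ Nat.card A → p ≤ n) → Nat.card A ≤ 2 ^ M →
      DU A (((n * M : ℕ) : ℝ) ^ Nat.log 2 e) := by
  intro e
  induction e using Nat.strong_induction_on with
  | _ e ih =>
    intro he A _ _ hexp hpr hcard
    have hnM : (1 : ℝ) ≤ ((n * M : ℕ) : ℝ) := by
      exact_mod_cast Nat.mul_pos hn hM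
    rcases Nat.lt_or_ge 1 e with he2 | he1
    swap
    · have h1 : e = 1 := le_antisymm he1 he
      subst h1
      haveI : Subsingleton A := ⟨fun a b => by
        have ha := hexp a
        have hb := hexp b
        rw [pow_one] at ha hb
        rw [ha, hb]⟩
      have h2 := DU.of_subsingleton A
      simpa using h2
    · set p := e.minFac with hpdef
      have hp : p.Prime := Nat.minFac_prime (by omega)
      haveI : Fact p.Prime := ⟨hp⟩
      have hpe : p ∣ e := Nat.minFac_dvd e
      have hmul : p * (e / p) = e := Nat.mul_div_cancel' hpe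
      have hlt : e / p < e := Nat.div_lt_self (by omega) hp.one_lt
      have hpos : 1 ≤ e / p := Nat.div_pos (Nat.le_of_dvd (by omega) hpe) hp.pos
      let f : A →* A := powMonoidHom p
      have hR : DU f.range (((n * M : ℕ) : ℝ) ^ Nat.log 2 (e / p)) := by
        refine ih (e / p) hlt hpos f.range ?_ ?_ ?_
        · rintro ⟨r, x, hx⟩
          apply Subtype.ext
          show r ^ (e / p) = 1
          rw [← hx]
          show (x ^ p) ^ (e / p) = 1
          rw [← pow_mul, hmul]
          exact hexp x
        · intro q hq hqd
          exact hpr q hq (hqd.trans (Subgroup.card_subgroup_dvd_card _))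
        · exact (Nat.le_of_dvd Nat.card_pos (Subgroup.card_subgroup_dvd_card _)).trans hcard
      have hKpow : ∀ a : f.rangeRestrict.ker, a ^ p = 1 := by
        rintro ⟨a, ha⟩
        apply Subtype.ext
        show a ^ p = 1
        rw [MonoidHom.mem_ker] at ha
        have h3 := congrArg Subtype.val ha
        exact h3
      have hK : DU f.rangeRestrict.ker (((n * M : ℕ) : ℝ)) := by
        by_cases hpd : p ∣ Nat.card A
        · have hpn := hpr p hp hpd
          have h4 : Nat.card f.rangeRestrict.ker ≤ p ^ M := by
            refine (Nat.le_of_dvd Nat.card_pos (Subgroup.card_subgroup_dvd_card _)).trans (hcard.trans ?_)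
            exact Nat.pow_le_pow_left hp.two_le M
          refine (DU_elementary p hKpow M h4).mono ?_
          have h5 : M * (p - 1) + 1 ≤ n * M := by
            obtain ⟨q, hq⟩ : ∃ q, p = q + 1 := ⟨p - 1, by have := hp.pos; omega⟩
            rw [hq] at hpn ⊢
            have h6 : (q + 1) * M ≤ n * M := Nat.mul_le_mul_right M hpn
            have h7 : (q + 1) * M = M * q + M := by ring
            simp only [Nat.add_sub_cancel]
            omega
          exact_mod_cast h5
        · haveI : Subsingleton f.rangeRestrict.ker := by
            refine ⟨fun a b => ?_⟩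
            have key : ∀ x : f.rangeRestrict.ker, x = 1 := by
              intro x
              have h6 : orderOf x ∣ p := orderOf_dvd_of_pow_eq_one (hKpow x)
              rcases (Nat.dvd_prime hp).1 h6 with h7 | h7
              · exact orderOf_eq_one_iff.1 h7
              · exfalso
                apply hpd
                rw [← h7]
                exact (orderOf_dvd_natCard x).trans (Subgroup.card_subgroup_dvd_card _)
            rw [key a, key b]
          exact (DU.of_subsingleton _).mono hnM
      have hA := DU.ext f.rangeRestrict hR hK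
      refine hA.mono ?_
      rw [← pow_succ]
      exact pow_le_pow_right₀ hnM (E2_log (by omega) hp.two_le)

end Pool.Agent.Lib.MP_c6e9f4_al.Nil
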