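import Pool.Agent.Lib.MP_c6e9f4_al.Asymp

/-!
ROW R1 (170 lines). Real analysis. `y := scale n = (n log n)^(1/3)`, `S` a finite set of primes with `∑ p ∈ S, p ^ 2 ≤ n`. The logarithm of the product is
`∑ p ∈ S, Nat.log p n * log n`, and `Nat.log p n ≤ log n / log p`. Split `S` in three parts.
(a) `p > y`: their number `t` satisfies `t y ^ 2 ≤ n`, and `log p ≥ log y ≥ (1/3) log n` (as `y ^ 3 = n log n ≥ n`), so each term is at most `3 log n`; total at most
`3 n log n / y ^ 2 = 3 y` (`scale_pow_three`).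
(b) `√y < p ≤ y`: at most `Nat.primeCounting ⌊y⌋₊ ≤ (log 4 + 0.1) y / log y` primes (`Chebyshev.eventually_primeCounting_le`, used in Asymp.lean), each term at most
`(log n)^2 / ((1/2) log y) ≤ 6 log n`; with `log y ≥ (1/3) log n` the total is at most `1.4864 * 3 * 6 y ≤ 27 y`.
(c) `p ≤ √y`: at most `√y` primes, each term at most `(log n)^2 / log 2 ≤ 1.5 (log n)^2`; the total `1.5 √y (log n)^2 ≤ y` for large `n` (`√y ≥ n ^ (1/6)` and
`(log n)^2 = o(n ^ (1/6))`). Together `31 y ≤ 40 y`.
-/

set_option autoImplicit false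

open Finset Filter Topology

namespace Pool.Agent.Lib.MP_c6e9f4_al.Nil

open Pool.Agent.Lib.MP_c6e9f4_al

private theorem r1_log {p n : ℕ} (hn : n ≠ 0) (hp : p.Prime) : (Nat.log p n : ℝ) * Real.log p ≤ Real.log n := by
  have h1 : p ^ Nat.log p n ≤ n := Nat.pow_log_le_self p hn
  have h2 : ((p : ℝ)) ^ Nat.log p n ≤ n := by exact_mod_cast h1
  have hp0 : (0 : ℝ) < p := by exact_mod_cast hp.pos
  have h3 := Real.log_le_log (by positivity) h2
  rwa [Real.log_pow] at h3

/-- the number of the primes up to `y` in `S` -/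
private theorem r1_count (S : Finset ℕ) (hS : ∀ p ∈ S, p.Prime) {y : ℝ} (h : ∀ p ∈ S, (p : ℝ) ≤ y) :
    S.card ≤ Nat.primeCounting ⌊y⌋₊ := by
  rw [Nat.primeCounting, Nat.primeCounting', Nat.count_eq_card_filter_range]
  refine card_le_card fun p hp => ?_
  rw [mem_filter, mem_range]
  refine ⟨?_, hS p hp⟩
  have := Nat.le_floor (h p hp)
  omega

/-- the number of the positive integers up to `x` in `S` -/
private theorem r1_count' (S : Finset ℕ) (hS : ∀ p ∈ S, p.Prime) {x : ℝ} (hx : 0 ≤ x) (h : ∀ p ∈ S, (p : ℝ) ≤ x) :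
    (S.card : ℝ) ≤ x := by
  have h1 : S.card ≤ (Icc 1 ⌊x⌋₊).card := by
    refine card_le_card fun p hp => ?_
    rw [mem_Icc]
    exact ⟨(hS p hp).one_le, Nat.le_floor (h p hp)⟩
  rw [Nat.card_Icc, Nat.add_sub_cancel] at h1
  exact (Nat.cast_le.2 h1).trans (Nat.floor_le hx)

theorem analysis : ∀ᶠ n : ℕ in atTop, ∀ S : Finset ℕ, (∀ p ∈ S, p.Prime) →
    ∑ p ∈ S, p ^ 2 ≤ n → ∏ p ∈ S, (n : ℝ) ^ Nat.log p n ≤ Real.exp (40 * scale n) := by
  classical
  have hlog : Tendsto (fun n : ℕ => Real.log n) atTop atTop :=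
    Real.tendsto_log_atTop.comp tendsto_natCast_atTop_atTop
  have hsm : ∀ᶠ x : ℝ in atTop, 13.5 * Real.log x ^ 2 ≤ √x := by
    have h1 : (fun x : ℝ => Real.log x ^ (2 : ℝ)) =o[atTop] fun x : ℝ => x ^ (1 / 2 : ℝ) :=
      isLittleO_log_rpow_rpow_atTop 2 (by norm_num)
    have h2 := h1.bound (c := 1 / 13.5) (by norm_num)
    filter_upwards [h2, eventually_ge_atTop 1] with x hx hx1
    rw [Real.norm_of_nonneg (Real.rpow_nonneg (Real.log_nonneg hx1) _), Real.norm_of_nonneg (by positivity),
      ← Real.sqrt_eq_rpow, Real.rpow_two] at hx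
    linarith
  filter_upwards [tendsto_scale.eventually (Chebyshev.eventually_primeCounting_le (ε := 0.1) (by norm_num)),
    tendsto_scale.eventually hsm, tendsto_scale.eventually (eventually_ge_atTop 4),
    hlog.eventually (eventually_ge_atTop 3), eventually_gt_atTop 1] with n h1 h2 h3 h4 h5 S hS hsum
  set y := scale n with hy
  have hn1 : (1 : ℝ) < n := by exact_mod_cast h5
  have hn0 : n ≠ 0 := by omega
  have hy3 : y ^ 3 = (n : ℝ) * Real.log n := scale_pow_three n
  have hy0 : 0 < y := by linarith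
  have hln : 0 < Real.log n := by linarith
  -- `log n ≤ 3 log y`
  have hlogy : Real.log n ≤ 3 * Real.log y := by
    rw [show (3 : ℝ) * Real.log y = Real.log (y ^ 3) by rw [Real.log_pow]; norm_num]
    apply Real.log_le_log (by linarith)
    rw [hy3]
    nlinarith
  have hly : 0 < Real.log y := by linarith
  have hlog4 : Real.log 4 < 1.3864 := by
    have : Real.log 4 = 2 * Real.log 2 := by
      rw [show (4 : ℝ) = 2 ^ 2 by norm_num, Real.log_pow]; norm_num
    have h := Real.log_two_lt_d9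
    linarith
  have hlog2 : 0.6931 < Real.log 2 := by have := Real.log_two_gt_d9; linarith
  -- the three parts
  have hsq : √y * √y = y := Real.mul_self_sqrt hy0.le
  have hsy : √y ≤ y := by
    rw [Real.sqrt_le_left hy0.le]
    nlinarith
  have hs1 : 1 ≤ √y := by
    rw [Real.one_le_sqrt]
    linarith
  have hA : ∑ p ∈ S.filter (fun p : ℕ => y < p), (Nat.log p n : ℝ) * Real.log n ≤ 3 * y := by
    have g1 : ∀ p ∈ S.filter (fun p : ℕ => y < p), (Nat.log p n : ℝ) * Real.log n ≤ 3 * Real.log n / y ^ 2 * ((p ^ 2 : ℕ) : ℝ) := by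
      intro p hp
      rw [mem_filter] at hp
      have g2 := r1_log hn0 (hS p hp.1)
      have g3 : Real.log y ≤ Real.log p := Real.log_le_log hy0 hp.2.le
      have g4 : (Nat.log p n : ℝ) ≤ 3 := by
        by_contra g5
        have g6 : 3 < (Nat.log p n : ℝ) := not_le.1 g5
        have g7 : 3 * Real.log p < (Nat.log p n : ℝ) * Real.log p := mul_lt_mul_of_pos_right g6 (by linarith)
        linarith
      have g8 : y ^ 2 ≤ ((p ^ 2 : ℕ) : ℝ) := by
        push_cast
        exact pow_le_pow_left₀ hy0.le hp.2.le 2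
      calc (Nat.log p n : ℝ) * Real.log n ≤ 3 * Real.log n := mul_le_mul_of_nonneg_right g4 hln.le
        _ = 3 * Real.log n / y ^ 2 * y ^ 2 := by field_simp
        _ ≤ _ := mul_le_mul_of_nonneg_left g8 (by positivity)
    have g2 : ∑ p ∈ S.filter (fun p : ℕ => y < p), ((p ^ 2 : ℕ) : ℝ) ≤ n := by
      have g3 : ∑ p ∈ S.filter (fun p : ℕ => y < p), p ^ 2 ≤ n :=
        (sum_le_sum_of_subset (filter_subset _ _)).trans hsum
      exact_mod_cast g3
    calc ∑ p ∈ S.filter (fun p : ℕ => y < p), (Nat.log p n : ℝ) * Real.log n ≤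
          ∑ p ∈ S.filter (fun p : ℕ => y < p), 3 * Real.log n / y ^ 2 * ((p ^ 2 : ℕ) : ℝ) := sum_le_sum g1
      _ = 3 * Real.log n / y ^ 2 * ∑ p ∈ S.filter (fun p : ℕ => y < p), ((p ^ 2 : ℕ) : ℝ) := by rw [mul_sum]
      _ ≤ 3 * Real.log n / y ^ 2 * n := mul_le_mul_of_nonneg_left g2 (by positivity)
      _ = 3 * (n * Real.log n) / y ^ 2 := by ring
      _ = 3 * y := by
          rw [← hy3]
          field_simp
  have hB : ∑ p ∈ (S.filter (fun p : ℕ => ¬ y < p)).filter (fun p : ℕ => √y < p), (Nat.log p n : ℝ) * Real.log n ≤ 27 * y := by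
    have g1 : ∀ p ∈ (S.filter (fun p : ℕ => ¬ y < p)).filter (fun p : ℕ => √y < p), (Nat.log p n : ℝ) * Real.log n ≤ 6 * Real.log n := by
      intro p hp
      rw [mem_filter, mem_filter] at hp
      have g2 := r1_log hn0 (hS p hp.1.1)
      have g3 : Real.log y ≤ 2 * Real.log p := by
        have g4 : Real.log (√y) ≤ Real.log p := Real.log_le_log (by positivity) hp.2.le
        rw [Real.log_sqrt hy0.le] at g4
        linarith
      have g4 : (Nat.log p n : ℝ) ≤ 6 := by
        by_contra g5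
        have g6 : 6 < (Nat.log p n : ℝ) := not_le.1 g5
        have g7 : 6 * Real.log p < (Nat.log p n : ℝ) * Real.log p := mul_lt_mul_of_pos_right g6 (by linarith)
        linarith
      exact mul_le_mul_of_nonneg_right g4 hln.le
    have g2 : (((S.filter (fun p : ℕ => ¬ y < p)).filter (fun p : ℕ => √y < p)).card : ℝ) ≤ 1.4864 * y / Real.log y := by
      have g3 : ((S.filter (fun p : ℕ => ¬ y < p)).filter (fun p : ℕ => √y < p)).card ≤ Nat.primeCounting ⌊y⌋₊ := by
        refine r1_count _ ?_ ?_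
        · intro p hp
          rw [mem_filter, mem_filter] at hp
          exact hS p hp.1.1
        · intro p hp
          rw [mem_filter, mem_filter] at hp
          exact not_lt.1 hp.1.2
      refine (Nat.cast_le.2 g3).trans (h1.trans ?_)
      refine div_le_div_of_nonneg_right ?_ hly.le
      exact mul_le_mul_of_nonneg_right (by linarith) hy0.le
    calc _ ≤ ∑ _p ∈ (S.filter (fun p : ℕ => ¬ y < p)).filter (fun p : ℕ => √y < p), 6 * Real.log n := sum_le_sum g1
      _ = (((S.filter (fun p : ℕ => ¬ y < p)).filter (fun p : ℕ => √y < p)).card : ℝ) * (6 * Real.log n) := by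
          rw [sum_const, nsmul_eq_mul]
      _ ≤ 1.4864 * y / Real.log y * (6 * Real.log n) := mul_le_mul_of_nonneg_right g2 (by positivity)
      _ ≤ 1.4864 * y / Real.log y * (6 * (3 * Real.log y)) := by
          refine mul_le_mul_of_nonneg_left ?_ (by positivity)
          linarith
      _ = 26.7552 * y := by
          field_simp
          norm_num
      _ ≤ 27 * y := by linarith
  have hC : ∑ p ∈ (S.filter (fun p : ℕ => ¬ y < p)).filter (fun p : ℕ => ¬ √y < p), (Nat.log p n : ℝ) * Real.log n ≤ y := by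
    have g1 : ∀ p ∈ (S.filter (fun p : ℕ => ¬ y < p)).filter (fun p : ℕ => ¬ √y < p), (Nat.log p n : ℝ) * Real.log n ≤
        1.5 * Real.log n * Real.log n := by
      intro p hp
      rw [mem_filter, mem_filter] at hp
      have g2 := r1_log hn0 (hS p hp.1.1)
      have g3 : Real.log 2 ≤ Real.log p := Real.log_le_log (by norm_num) (by exact_mod_cast (hS p hp.1.1).two_le)
      have g4 : (Nat.log p n : ℝ) * Real.log 2 ≤ Real.log n :=
        (mul_le_mul_of_nonneg_left g3 (Nat.cast_nonneg _)).trans g2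
      have g5 : (Nat.log p n : ℝ) ≤ 1.5 * Real.log n := by
        have g6 : (0 : ℝ) ≤ (Nat.log p n : ℝ) := Nat.cast_nonneg _
        nlinarith
      exact mul_le_mul_of_nonneg_right g5 hln.le
    have g2 : (((S.filter (fun p : ℕ => ¬ y < p)).filter (fun p : ℕ => ¬ √y < p)).card : ℝ) ≤ √y := by
      refine r1_count' _ ?_ (Real.sqrt_nonneg _) ?_
      · intro p hp
        rw [mem_filter, mem_filter] at hp
        exact hS p hp.1.1
      · intro p hp
        rw [mem_filter, mem_filter] at hp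
        exact not_lt.1 hp.2
    calc _ ≤ ∑ _p ∈ (S.filter (fun p : ℕ => ¬ y < p)).filter (fun p : ℕ => ¬ √y < p), 1.5 * Real.log n * Real.log n := sum_le_sum g1
      _ = (((S.filter (fun p : ℕ => ¬ y < p)).filter (fun p : ℕ => ¬ √y < p)).card : ℝ) * (1.5 * Real.log n * Real.log n) := by
          rw [sum_const, nsmul_eq_mul]
      _ ≤ √y * (1.5 * Real.log n * Real.log n) := mul_le_mul_of_nonneg_right g2 (by positivity)
      _ ≤ √y * √y := by
          refine mul_le_mul_of_nonneg_left ?_ (Real.sqrt_nonneg _)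
          refine le_trans ?_ h2
          nlinarith [mul_le_mul hlogy hlogy hln.le (by linarith : 0 ≤ 3 * Real.log y)]
      _ = y := hsq
  -- the product
  have hprod : ∏ p ∈ S, (n : ℝ) ^ Nat.log p n = Real.exp (∑ p ∈ S, (Nat.log p n : ℝ) * Real.log n) := by
    rw [Real.exp_sum]
    refine prod_congr rfl fun p _ => ?_
    rw [Real.exp_nat_mul, Real.exp_log (by linarith)]
  rw [hprod]
  refine Real.exp_le_exp.2 ?_
  rw [← sum_filter_add_sum_filter_not S (fun p : ℕ => y < p),
    ← sum_filter_add_sum_filter_not (S.filter (fun p : ℕ => ¬ y < p)) (fun p : ℕ => √y < p)]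
  linarith

end Pool.Agent.Lib.MP_c6e9f4_al.Nil
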