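import Pool.Agent.Lib.MP_c6e9f4_al.Nil.N4
import Pool.Agent.Lib.MP_c6e9f4_al.Nil.R1

/-!
ROW F1 (60 lines). Nilpotent upper bound. From R1 there is `N0` such that for `n ≥ N0` (and `n ≥ 2`) N4 gives
`permIndex H ≤ 4 exp (40 scale n) ≤ exp (42 scale n)` (`1 ≤ scale n` for `n ≥ 2` as `2 log 2 > 1`). For `2 ≤ n < N0`: `permIndex H ≤ Nat.card H + 1 ≤ n! + 1 ≤ N0! + 1`
(`isPermutable_of_card_lt`, `permIndex_le`), and `N0! + 1 ≤ exp (C) ≤ exp (C scale n)` for `C := max 42 (log (N0! + 1))`.
-/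

set_option autoImplicit false

open Filter

namespace Pool.Agent.Lib.MP_c6e9f4_al.Nil

open Pool.Agent.Lib.MP_c6e9f4_al

private lemma f1_scale {n : ℕ} (hn : 2 ≤ n) : 1 ≤ scale n := by
  unfold scale
  apply Real.one_le_rpow _ (by norm_num)
  have h2 : (2 : ℝ) ≤ n := by exact_mod_cast hn
  have h3 : Real.log 2 ≤ Real.log n := Real.log_le_log (by norm_num) h2
  have h4 := Real.log_two_gt_d9
  nlinarith

theorem nilpotent_upper : ∃ C : ℝ, ∀ n : ℕ, 2 ≤ n → ∀ H : Subgroup (Equiv.Perm (Fin n)),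
    Group.IsNilpotent H → (permIndex H : ℝ) ≤ Real.exp (C * scale n) := by
  obtain ⟨N0, hN0⟩ := Filter.eventually_atTop.mp analysis
  refine ⟨max 42 (Real.log ((N0.factorial : ℝ) + 1)), fun n hn H hH => ?_⟩
  have hs := f1_scale hn
  have hs0 : 0 ≤ scale n := by linarith
  rcases le_or_gt N0 n with h | h
  · obtain ⟨S, hS1, hS2, hS3⟩ := permIndex_nilpotent n (by omega) H hH
    have h1 := hN0 n h S hS1 hS2
    have h2 : (4 : ℝ) ≤ Real.exp 2 := by
      have h3 := Real.exp_one_gt_d9
      have h4 : Real.exp 2 = Real.exp 1 ^ 2 := by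
        rw [← Real.exp_nat_mul]
        norm_num
      rw [h4]
      nlinarith
    have h5 : (4 : ℝ) ≤ Real.exp (2 * scale n) := h2.trans (Real.exp_le_exp.mpr (by linarith))
    calc (permIndex H : ℝ) ≤ 4 * ∏ p ∈ S, (n : ℝ) ^ Nat.log p n := hS3
      _ ≤ Real.exp (2 * scale n) * Real.exp (40 * scale n) :=
          mul_le_mul h5 h1 (Finset.prod_nonneg fun p _ => by positivity) (Real.exp_pos _).le
      _ = Real.exp (42 * scale n) := by rw [← Real.exp_add]; apply congrArg; ring
      _ ≤ _ := Real.exp_le_exp.mpr (mul_le_mul_of_nonneg_right (le_max_left _ _) hs0)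
  · have hpos : 0 < Nat.card H := Nat.card_pos
    have h1 : permIndex H ≤ Nat.card H + 1 := permIndex_le (by omega) (isPermutable_of_card_lt (Nat.lt_succ_self _))
    have h2 : Nat.card H ≤ n.factorial := by
      calc Nat.card H ≤ Nat.card (Equiv.Perm (Fin n)) := Subgroup.card_le_card_group H
        _ = n.factorial := by rw [Nat.card_eq_fintype_card, Fintype.card_perm, Fintype.card_fin]
    have h3 : n.factorial ≤ N0.factorial := Nat.factorial_le h.le
    have h4 : (permIndex H : ℝ) ≤ (N0.factorial : ℝ) + 1 := by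
      have : permIndex H ≤ N0.factorial + 1 := by omega
      exact_mod_cast this
    have h5 : (0 : ℝ) < (N0.factorial : ℝ) + 1 := by positivity
    have h6 : 0 ≤ Real.log ((N0.factorial : ℝ) + 1) := Real.log_nonneg (by
      have : (0 : ℝ) ≤ (N0.factorial : ℝ) := Nat.cast_nonneg _
      linarith)
    calc (permIndex H : ℝ) ≤ (N0.factorial : ℝ) + 1 := h4
      _ = Real.exp (Real.log ((N0.factorial : ℝ) + 1)) := (Real.exp_log h5).symm
      _ ≤ Real.exp (max 42 (Real.log ((N0.factorial : ℝ) + 1)) * scale n) := by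
          apply Real.exp_le_exp.mpr
          have h7 := le_max_right 42 (Real.log ((N0.factorial : ℝ) + 1))
          nlinarith

end Pool.Agent.Lib.MP_c6e9f4_al.Nil
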