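import Pool.Agent.Lib.MP_c6e9f4_al.Nil.E1

/-!
ROW G1 (170 lines). A `p`-group acting faithfully on at most `n` points, all orbits of length at most `p ^ k`, has ordered
Davenport constant at most `n ^ k`.
Proof. Induction on `k`. `k = 0`: all orbits are trivial, so `P` is trivial. Step `k + 1`: let `R` be a set of representatives of the
nontrivial orbits (`Nat.card (orbit P x) ≥ 2`, hence `≥ p`), so `R.card * p ≤ card X ≤ n`. For `x ∈ R` the stabiliser is a proper subgroup, contained in a
maximal subgroup `M x`; in a `p`-group a maximal subgroup is normal of index `p` (`IsPGroup`/nilpotent: `IsCoatom` subgroups are normal,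
`Group.IsNilpotent` normalizer condition `NormalizerCondition.normal_of_coatom`; the quotient has no proper subgroups, order `p`). Let
`f : P →* (∀ x : R, P ⧸ M x)`. Its range `A` is commutative with `a ^ p = 1`, `Nat.card A ≤ p ^ R.card`, so by `DU_elementary`
`DU A (R.card (p - 1) + 1)`, and `R.card (p - 1) + 1 ≤ n` (if `R` is empty use `1 ≤ n`; otherwise `R.card p ≤ n`). The kernel `K` is contained in every
`M x`, `x ∈ R`, and for `y = g x` the stabiliser of `y` is contained in `g (M x) g⁻¹ = M x`, so the `K`-orbit of `y` lies in the `M x`-orbit of `y`, of length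
`|M x : P_y| = |P : P_y| / p ≤ p ^ k`; for a point with trivial `P`-orbit the `K`-orbit is trivial. By induction `DU K (n ^ k)`; `DU.ext` (for
`f.rangeRestrict`).
-/

set_option autoImplicit false

namespace Pool.Agent.Lib.MP_c6e9f4_al.Nil

open MulAction in
/-- A proper subgroup of a finite `p`-group lies in a normal subgroup of index `p`. -/
private theorem g1_coatom (p : ℕ) [Fact p.Prime] {P : Type} [Group P] [Finite P] (hP : IsPGroup p P)
    (H : Subgroup P) (hH : H ≠ ⊤) : ∃ M : Subgroup P, M.Normal ∧ H ≤ M ∧ M.index = p := by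
  obtain h | ⟨M, hM, hHM⟩ := eq_top_or_exists_le_coatom H
  · exact absurd h hH
  have : Group.IsNilpotent P := hP.isNilpotent
  have hMn : M.Normal := Subgroup.NormalizerCondition.normal_of_coatom M Group.normalizerCondition_of_isNilpotent hM
  refine ⟨M, hMn, hHM, ?_⟩
  -- the quotient is a nontrivial `p`-group
  have hQ : IsPGroup p (P ⧸ M) := hP.to_quotient M
  have hcard : Nat.card (P ⧸ M) ≠ 1 := by
    intro h1
    apply hM.1
    exact Subgroup.index_eq_one.1 h1
  obtain ⟨m, hm⟩ := IsPGroup.iff_card.1 hQ
  have hm0 : m ≠ 0 := by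
    rintro rfl
    exact hcard (by simpa using hm)
  have hdvd : p ∣ Nat.card (P ⧸ M) := by
    rw [hm]
    exact dvd_pow_self p hm0
  obtain ⟨x, hx⟩ := exists_prime_orderOf_dvd_card' (G := P ⧸ M) p hdvd
  -- its preimage is everything
  have htop : (Subgroup.zpowers x).comap (QuotientGroup.mk' M) = ⊤ := by
    have hle : M ≤ (Subgroup.zpowers x).comap (QuotientGroup.mk' M) := by
      intro g hg
      rw [Subgroup.mem_comap]
      have : (QuotientGroup.mk' M) g = 1 := by
        rw [← MonoidHom.mem_ker, QuotientGroup.ker_mk']
        exact hg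
      rw [this]
      exact Subgroup.one_mem _
    rcases hle.eq_or_lt with he | hlt
    · exfalso
      obtain ⟨g, rfl⟩ := QuotientGroup.mk'_surjective M x
      have hg : g ∈ (Subgroup.zpowers ((QuotientGroup.mk' M) g)).comap (QuotientGroup.mk' M) := by
        rw [Subgroup.mem_comap]
        exact Subgroup.mem_zpowers _
      rw [← he] at hg
      have h1 : (QuotientGroup.mk' M) g = 1 := by
        rw [← MonoidHom.mem_ker, QuotientGroup.ker_mk']
        exact hg
      rw [h1, orderOf_one] at hx
      exact (Fact.out : p.Prime).one_lt.ne hx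
    · exact hM.2 _ hlt
  have hz : Subgroup.zpowers x = ⊤ := by
    rw [eq_top_iff]
    intro y _
    obtain ⟨g, rfl⟩ := QuotientGroup.mk'_surjective M y
    have : g ∈ (Subgroup.zpowers x).comap (QuotientGroup.mk' M) := by rw [htop]; trivial
    exact this
  have h2 : Nat.card (Subgroup.zpowers x) = p := by rw [Nat.card_zpowers, hx]
  rw [hz, Subgroup.card_top] at h2
  exact h2

open MulAction in
private theorem g1_orbit_step (p : ℕ) [Fact p.Prime] {P X : Type} [Group P] [Finite P] [MulAction P X]
    (M : Subgroup P) (hMn : M.Normal) (hMi : M.index = p) (x y : X) (hxM : stabilizer P x ≤ M)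
    (hy : y ∈ orbit P x) : Nat.card (orbit M y) * p = Nat.card (orbit P y) := by
  obtain ⟨g, rfl⟩ := hy
  have hs : stabilizer P (g • x) ≤ M := by
    intro h hh
    have h1 : g⁻¹ * h * g ∈ stabilizer P x := by
      rw [mem_stabilizer_iff] at hh ⊢
      rw [mul_smul, mul_smul, hh, inv_smul_smul]
    have h2 := hMn.conj_mem _ (hxM h1) g
    have h3 : g * (g⁻¹ * h * g) * g⁻¹ = h := by group
    rwa [h3] at h2
  have h1 := Subgroup.relIndex_mul_index hs
  have h2 : (stabilizer P (g • x)).relIndex M = Nat.card (orbit M (g • x)) := by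
    have h3 : (stabilizer P (g • x)).subgroupOf M = stabilizer M (g • x) := by
      ext m
      rw [Subgroup.mem_subgroupOf, mem_stabilizer_iff, mem_stabilizer_iff]
      rfl
    rw [Subgroup.relIndex, h3, index_stabilizer, Nat.card_coe_set_eq]
  rw [h2, hMi, index_stabilizer, ← Nat.card_coe_set_eq] at h1
  exact h1

open MulAction in
theorem DU_pgroup (p : ℕ) [Fact p.Prime] (n : ℕ) (hn : 1 ≤ n) : ∀ (k : ℕ) (P X : Type) [Group P]
    [Finite P] [Fintype X] [MulAction P X] [FaithfulSMul P X], IsPGroup p P → Fintype.card X ≤ n →
    (∀ x : X, Nat.card (MulAction.orbit P x) ≤ p ^ k) → DU P ((n : ℝ) ^ k) := by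
  classical
  have hp : p.Prime := Fact.out
  intro k
  induction k with
  | zero =>
    intro P X _ _ _ _ _ hP hX ho
    have hsub : Subsingleton P := by
      refine ⟨fun a b => ?_⟩
      refine FaithfulSMul.eq_of_smul_eq_smul (α := X) fun x => ?_
      have h1 := ho x
      rw [pow_zero] at h1
      have h2 : Subsingleton (orbit P x) := Finite.card_le_one_iff_subsingleton.1 h1
      have h3 := h2.elim ⟨a • x, mem_orbit x a⟩ ⟨b • x, mem_orbit x b⟩
      exact congrArg Subtype.val h3
    rw [pow_zero]
    exact DU.of_subsingleton P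
  | succ k ih =>
    intro P X _ _ _ _ _ hP hX ho
    -- the nontrivial orbits
    let I : Type := {ω : orbitRel.Quotient P X // 2 ≤ Nat.card (orbit P ω.out)}
    let : Fintype I := Fintype.ofFinite I
    have hstab : ∀ ω : I, ∃ M : Subgroup P, M.Normal ∧ stabilizer P ω.1.out ≤ M ∧ M.index = p := by
      intro ω
      refine g1_coatom p hP _ fun ht => ?_
      have h1 : (stabilizer P ω.1.out).index = Nat.card (orbit P ω.1.out) := by
        rw [index_stabilizer, Nat.card_coe_set_eq]
      rw [ht, Subgroup.index_top] at h1
      have := ω.2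
      omega
    choose M hMn hMs hMi using hstab
    -- the number of nontrivial orbits
    have hcount : Fintype.card I * p ≤ n := by
      have h1 : Nat.card X = ∑ᶠ ω : orbitRel.Quotient P X, Nat.card (orbit P ω.out) := by
        rw [Nat.card_congr (selfEquivSigmaOrbits P X)]
        let : Fintype (orbitRel.Quotient P X) := Fintype.ofFinite _
        rw [Nat.card_sigma, finsum_eq_sum_of_fintype]
      let : Fintype (orbitRel.Quotient P X) := Fintype.ofFinite _
      rw [finsum_eq_sum_of_fintype] at h1
      have h2 : ∀ ω : I, p ≤ Nat.card (orbit P ω.1.out) := by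
        intro ω
        obtain ⟨m, hm⟩ := hP.card_orbit ω.1.out
        have h3 := ω.2
        rw [hm] at h3 ⊢
        have hm0 : m ≠ 0 := by
          rintro rfl
          simp at h3
        exact Nat.le_self_pow hm0 p
      calc Fintype.card I * p = ∑ _ω : I, p := by simp
        _ ≤ ∑ ω : I, Nat.card (orbit P ω.1.out) := Finset.sum_le_sum fun ω _ => h2 ω
        _ = ∑ ω ∈ Finset.univ.filter (fun ω : orbitRel.Quotient P X => 2 ≤ Nat.card (orbit P ω.out)),
            Nat.card (orbit P ω.out) := by
            refine Finset.sum_bij (fun ω _ => ω.1) ?_ ?_ ?_ ?_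
            · intro ω _
              rw [Finset.mem_filter]
              exact ⟨Finset.mem_univ _, ω.2⟩
            · intro a _ b _ hab
              exact Subtype.ext hab
            · intro b hb
              rw [Finset.mem_filter] at hb
              exact ⟨⟨b, hb.2⟩, Finset.mem_univ _, rfl⟩
            · intro a _
              rfl
        _ ≤ ∑ ω : orbitRel.Quotient P X, Nat.card (orbit P ω.out) :=
            Finset.sum_le_sum_of_subset (Finset.filter_subset _ _)
        _ = Nat.card X := h1.symm
        _ ≤ n := by rw [Nat.card_eq_fintype_card]; exact hX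
    have hQcard : ∀ ω : I, Nat.card (P ⧸ M ω) = p := fun ω => hMi ω
    have : ∀ ω : I, (M ω).Normal := hMn
    let f : P →* (∀ ω : I, P ⧸ M ω) := MonoidHom.pi fun ω => QuotientGroup.mk' (M ω)
    have hQcomm : ∀ (ω : I) (a b : P ⧸ M ω), a * b = b * a := by
      intro ω a b
      have : IsCyclic (P ⧸ M ω) := isCyclic_of_prime_card (hQcard ω)
      exact (IsCyclic.isMulCommutative (α := P ⧸ M ω)).is_comm.comm a b
    have hQpow : ∀ (ω : I) (a : P ⧸ M ω), a ^ p = 1 := by
      intro ω a
      rw [← hQcard ω]
      exact pow_card_eq_one'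
    have hDUA : DU f.range (n : ℝ) := by
      let cg : CommGroup f.range :=
        { (inferInstance : Group f.range) with
          mul_comm := by
            intro a b
            apply Subtype.ext
            funext ω
            exact hQcomm ω _ _ }
      have hpw : ∀ a : f.range, a ^ p = 1 := by
        intro a
        apply Subtype.ext
        funext ω
        exact hQpow ω _
      have hcd : Nat.card f.range ≤ p ^ Fintype.card I := by
        calc Nat.card f.range ≤ Nat.card (∀ ω : I, P ⧸ M ω) :=
              Nat.card_le_card_of_injective (fun a : f.range => (a : ∀ ω : I, P ⧸ M ω)) Subtype.val_injective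
          _ = p ^ Fintype.card I := by
              rw [Nat.card_pi, Finset.prod_congr rfl fun ω _ => hQcard ω]
              simp
      have h1 := DU_elementary (A := f.range) p hpw (Fintype.card I) hcd
      refine DU.mono h1 ?_
      have h2 : Fintype.card I * (p - 1) + 1 ≤ n := by
        rcases Nat.eq_zero_or_pos (Fintype.card I) with h0 | h0
        · rw [h0]
          omega
        · obtain ⟨q, rfl⟩ : ∃ q, p = q + 1 := ⟨p - 1, by have := hp.pos; omega⟩
          rw [Nat.add_sub_cancel]
          calc Fintype.card I * q + 1 ≤ Fintype.card I * q + Fintype.card I := by omega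
            _ = Fintype.card I * (q + 1) := by ring
            _ ≤ n := hcount
      exact_mod_cast h2
    have hker : DU f.rangeRestrict.ker ((n : ℝ) ^ k) := by
      refine ih f.rangeRestrict.ker X (hP.to_subgroup _) hX ?_
      intro y
      have hKM : ∀ ω : I, f.rangeRestrict.ker ≤ M ω := by
        intro ω g hg
        rw [MonoidHom.ker_rangeRestrict, MonoidHom.mem_ker] at hg
        have h1 := congrFun hg ω
        have h2 : (QuotientGroup.mk' (M ω)) g = 1 := h1
        rw [← MonoidHom.mem_ker, QuotientGroup.ker_mk'] at h2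
        exact h2
      by_cases hnt : 2 ≤ Nat.card (orbit P (Quotient.mk'' y : orbitRel.Quotient P X).out)
      · set ω : I := ⟨Quotient.mk'' y, hnt⟩ with hω
        have hyo : y ∈ orbit P ω.1.out := by
          have h1 : (Quotient.mk'' ω.1.out : orbitRel.Quotient P X) = Quotient.mk'' y := Quotient.out_eq' _
          have h2 := Quotient.exact' h1
          rw [orbitRel_apply] at h2
          exact (mem_orbit_symm).1 h2
        have h1 := g1_orbit_step p (M ω) (hMn ω) (hMi ω) ω.1.out y (hMs ω) hyo
        have h2 := ho y
        rw [← h1, pow_succ] at h2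
        have h3 : Nat.card (orbit (M ω) y) ≤ p ^ k := Nat.le_of_mul_le_mul_right h2 hp.pos
        refine le_trans ?_ h3
        refine Nat.card_mono (Set.toFinite _) ?_
        rintro _ ⟨g, rfl⟩
        exact ⟨⟨g.1, hKM ω g.2⟩, rfl⟩
      · have h1 : Nat.card (orbit P y) ≤ 1 := by
          have h2 : orbit P (Quotient.mk'' y : orbitRel.Quotient P X).out = orbit P y := by
            rw [orbit_eq_iff]
            have h3 : (Quotient.mk'' (Quotient.mk'' y : orbitRel.Quotient P X).out : orbitRel.Quotient P X) =
              Quotient.mk'' y := Quotient.out_eq' _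
            have h4 := Quotient.exact' h3
            rwa [orbitRel_apply] at h4
          rw [h2] at hnt
          omega
        calc Nat.card (orbit f.rangeRestrict.ker y) ≤ Nat.card (orbit P y) := by
              refine Nat.card_mono (Set.toFinite _) ?_
              rintro _ ⟨g, rfl⟩
              exact ⟨g.1, rfl⟩
          _ ≤ 1 := h1
          _ ≤ p ^ k := Nat.one_le_pow _ _ hp.pos
    have hfin := DU.ext f.rangeRestrict hDUA hker
    rw [pow_succ']
    exact hfin

/-- For `p`-subgroups of `S_n`: orbit lengths are powers of `p` and at most `n`, so at most `p ^ Nat.log p n`. -/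
theorem DU_pgroup_perm (p : ℕ) [Fact p.Prime] (n : ℕ) (hn : 1 ≤ n)
    (P : Subgroup (Equiv.Perm (Fin n))) (hP : IsPGroup p P) : DU P ((n : ℝ) ^ Nat.log p n) := by
  have hp : p.Prime := Fact.out
  refine DU_pgroup p n hn (Nat.log p n) P (Fin n) hP (by simp) ?_
  intro x
  obtain ⟨m, hm⟩ := hP.card_orbit x
  rw [hm]
  refine Nat.pow_le_pow_right hp.pos ?_
  have h1 : p ^ m ≤ n := by
    rw [← hm]
    calc Nat.card (MulAction.orbit P x) ≤ Nat.card (Fin n) :=
          Nat.card_le_card_of_injective Subtype.val Subtype.val_injective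
      _ = n := by simp
  exact Nat.le_log_of_pow_le hp.one_lt h1

end Pool.Agent.Lib.MP_c6e9f4_al.Nil
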