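import Pool.Agent.Lib.MP_c6e9f4_al.Heis

/-!
ROW H1 (150 lines). The lower bound inside a nilpotent subgroup. `UU m` is the group of the permutations `(u, v) ↦ (u + s, v + a u + b)` of `(ℤ/m)²`.
* UU_nilpotent: the map `UU m → Multiplicative (ZMod m) × Multiplicative (ZMod m)`, `g ↦ (s, a)`, where `s = (g (0,0)).1`, `a = (g (1,0)).2 - (g (0,0)).2`, is a homomorphism; its
  kernel consists of the maps `(u, v) ↦ (u, v + b)`, which commute with everything: `Group.isNilpotent_of_ker_le_center`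
  (or another route: commutators are of this form, so central).
* exists_nilpotent: follow the proof of `not_isPermutable_perm` in Heis.lean: `H := ` range of the homomorphism
  `(∀ i, UU (m i)) →* (∀ i, Perm (ZMod (m i) × ZMod (m i))) →* Perm (Σ i, ..) →* Perm (Fin n)`; it is nilpotent (finite product of nilpotent groups
  `Group.isNilpotent_pi`, image) and if `H` were `k`-permutable, so would be `∀ i, UU (m i)` (injective, `IsPermutable.of_injective`), and the tuple `j ↦ (i ↦ heis (m i) j)`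
  gives the same contradiction as there (copy that part).
-/

set_option autoImplicit false

open Finset

namespace Pool.Agent.Lib.MP_c6e9f4_al.Nil

open Pool.Agent.Lib.MP_c6e9f4_al

/-- The unitriangular affine permutations of `(ℤ/m)²`. -/
def UU (m : ℕ) : Subgroup (Equiv.Perm (ZMod m × ZMod m)) where
  carrier := {g | ∃ s a b : ZMod m, ∀ w : ZMod m × ZMod m, g w = (w.1 + s, w.2 + a * w.1 + b)}
  mul_mem' := by
    rintro g h ⟨s, a, b, hg⟩ ⟨s', a', b', hh⟩
    refine ⟨s' + s, a' + a, b' + a * s' + b, fun w => ?_⟩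
    rw [Equiv.Perm.mul_apply, hh, hg]
    ext
    · simp [add_assoc]
    · simp only; ring
  one_mem' := ⟨0, 0, 0, fun w => by simp⟩
  inv_mem' := by
    rintro g ⟨s, a, b, hg⟩
    refine ⟨-s, -a, a * s - b, fun w => ?_⟩
    rw [Equiv.Perm.inv_eq_iff_eq, hg]
    ext
    · simp
    · simp only; ring

theorem heis_mem (m a : ℕ) : heis m a ∈ UU m :=
  ⟨1, a, 0, fun w => by simp [heis]⟩

/-- the map `g ↦ (s, a)` -/
private def h1_hom (m : ℕ) : UU m →* Multiplicative (ZMod m) × Multiplicative (ZMod m) where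
  toFun g := (Multiplicative.ofAdd (g.1 (0, 0)).1, Multiplicative.ofAdd ((g.1 (1, 0)).2 - (g.1 (0, 0)).2))
  map_one' := by
    ext <;> simp
  map_mul' := by
    rintro ⟨g, s, a, b, hg⟩ ⟨h, s', a', b', hh⟩
    have e1 : (g * h) (0, 0) = (s' + s, b' + a * s' + b) := by
      rw [Equiv.Perm.mul_apply, hh, hg]
      ext <;> simp
    have e2 : (g * h) (1, 0) = (1 + s' + s, a' + b' + a * (1 + s') + b) := by
      rw [Equiv.Perm.mul_apply, hh, hg]
      ext <;> simp
    have e3 : g (0, 0) = (s, b) := by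
      rw [hg]
      ext <;> simp
    have e4 : h (0, 0) = (s', b') := by
      rw [hh]
      ext <;> simp
    have e5 : g (1, 0) = (1 + s, a + b) := by
      rw [hg]
      ext <;> simp
    have e6 : h (1, 0) = (1 + s', a' + b') := by
      rw [hh]
      ext <;> simp
    change (Multiplicative.ofAdd ((g * h) (0, 0)).1, Multiplicative.ofAdd (((g * h) (1, 0)).2 - ((g * h) (0, 0)).2)) =
      (Multiplicative.ofAdd (g (0, 0)).1, Multiplicative.ofAdd ((g (1, 0)).2 - (g (0, 0)).2)) *
        (Multiplicative.ofAdd (h (0, 0)).1, Multiplicative.ofAdd ((h (1, 0)).2 - (h (0, 0)).2))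
    rw [e1, e2, e3, e4, e5, e6, Prod.mk_mul_mk, ← ofAdd_add, ← ofAdd_add]
    refine Prod.ext (congrArg Multiplicative.ofAdd ?_) (congrArg Multiplicative.ofAdd ?_)
    · change s' + s = s + s'
      ring
    · change a' + b' + a * (1 + s') + b - (b' + a * s' + b) = a + b - b + (a' + b' - b')
      ring

theorem UU_nilpotent (m : ℕ) : Group.IsNilpotent (UU m) := by
  refine Subgroup.isNilpotent_of_ker_le_center (h1_hom m) ?_
  rintro ⟨g, s, a, b, hg⟩ hk
  rw [MonoidHom.mem_ker] at hk
  have e3 : g (0, 0) = (s, b) := by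
    rw [hg]
    ext <;> simp
  have e5 : g (1, 0) = (1 + s, a + b) := by
    rw [hg]
    ext <;> simp
  have h1 : Multiplicative.ofAdd (g (0, 0)).1 = 1 := congrArg Prod.fst hk
  have h2 : Multiplicative.ofAdd ((g (1, 0)).2 - (g (0, 0)).2) = 1 := congrArg Prod.snd hk
  rw [e3] at h1
  rw [e3, e5] at h2
  have hs : s = 0 := ofAdd_eq_one.mp h1
  have ha : a = 0 := by
    have h3 : a + b - b = 0 := ofAdd_eq_one.mp h2
    rwa [add_sub_cancel_right] at h3
  rw [Subgroup.mem_center_iff]
  rintro ⟨h, s', a', b', hh⟩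
  apply Subtype.ext
  refine Equiv.ext fun w => ?_
  change h (g w) = g (h w)
  rw [hg w, hh w, hh, hg, hs, ha]
  ext
  · simp
  · simp only
    ring

theorem exists_nilpotent {ι : Type} [Fintype ι] [DecidableEq ι] (m : ι → ℕ)
    (hpos : ∀ i, 0 < m i) (hco : Pairwise (Function.onFun Nat.Coprime m)) {n k : ℕ} (hk : 0 < k)
    (hn : ∑ i, m i ^ 2 ≤ n) (hN : k ^ 3 ≤ ∏ i, m i) :
    ∃ H : Subgroup (Equiv.Perm (Fin n)), Group.IsNilpotent H ∧ ¬ IsPermutable H k := by
  have : ∀ i, NeZero (m i) := fun i => ⟨(hpos i).ne'⟩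
  have hcard : Fintype.card (Σ i, ZMod (m i) × ZMod (m i)) ≤ Fintype.card (Fin n) := by
    rw [Fintype.card_sigma, Fintype.card_fin]
    refine le_trans (le_of_eq ?_) hn
    refine Finset.sum_congr rfl fun i _ => ?_
    rw [Fintype.card_prod, ZMod.card, sq]
  obtain ⟨e⟩ := Function.Embedding.nonempty_of_card_le hcard
  obtain ⟨f, hf⟩ : ∃ f : (∀ i, UU (m i)) →* Equiv.Perm (Fin n), Function.Injective f := by
    refine ⟨((Equiv.Perm.viaEmbeddingHom e).comp (Equiv.Perm.sigmaCongrRightHom _)).comp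
      (MonoidHom.pi fun i => (UU (m i)).subtype.comp (Pi.evalMonoidHom (fun i => UU (m i)) i)), ?_⟩
    refine (Function.Injective.comp (Equiv.Perm.viaEmbeddingHom_injective e)
      Equiv.Perm.sigmaCongrRightHom_injective).comp ?_
    intro x y hxy
    refine funext fun i => Subtype.ext ?_
    exact congrFun hxy i
  have hnil : Group.IsNilpotent (∀ i, UU (m i)) := by
    have : ∀ i, Group.IsNilpotent (UU (m i)) := fun i => UU_nilpotent (m i)
    infer_instance
  refine ⟨f.range, Group.nilpotent_of_surjective f.rangeRestrict f.rangeRestrict_surjective, fun hP => ?_⟩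
  have h2 : IsPermutable (∀ i, UU (m i)) k :=
    hP.of_injective f.rangeRestrict ((MonoidHom.rangeRestrict_injective_iff).mpr hf)
  obtain ⟨σ, hσ, hp⟩ := h2 (fun j i => ⟨heis (m i) j, heis_mem (m i) j⟩)
  have h3 : ∀ i, ((wt k 1 : ℕ) : ZMod (m i)) = ((wt k σ : ℕ) : ZMod (m i)) := by
    intro i
    have h4 := congrArg (fun f => ((UU (m i)).subtype.comp (Pi.evalMonoidHom (fun i => UU (m i)) i)) f) hp
    simp only [map_list_prod, List.map_ofFn] at h4
    have h5 := congrArg (fun f : Equiv.Perm (ZMod (m i) × ZMod (m i)) => (f (0, 0)).2) h4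
    have e1 := prod_heis (m i) k (fun j => (j : ℕ))
    have e2 := prod_heis (m i) k (fun j => (σ j : ℕ))
    have h6 : (((List.ofFn fun j : Fin k => heis (m i) (j : ℕ)).prod (0, 0)).2 : ZMod (m i)) =
        ((List.ofFn fun j : Fin k => heis (m i) (σ j : ℕ)).prod (0, 0)).2 := h5
    rw [e1, e2] at h6
    simpa [wt] using h6
  have hlt := wt_one_lt hσ
  have hdvd : (∏ i, m i) ∣ wt k σ - wt k 1 := by
    refine Finset.prod_dvd_of_isRelPrime (fun i _ j _ hij => ?_) (fun i _ => ?_)
    · exact Nat.coprime_iff_isRelPrime.mp (hco hij)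
    · exact (Nat.modEq_iff_dvd' hlt.le).1 ((ZMod.natCast_eq_natCast_iff _ _ _).1 (h3 i))
  have hle := Nat.le_of_dvd (by omega) hdvd
  have := wt_lt hk σ
  omega

end Pool.Agent.Lib.MP_c6e9f4_al.Nil
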