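import Pool.Agent.Lib.MP_c6e9f4_al.Nil.H1
import Pool.Agent.Lib.MP_c6e9f4_al.Asymp

/-!
ROW H2 (110 lines). The lower bound for nilpotent subgroups: copy the proofs of `not_isPermutable_of_primorial` and `exp_le_permIndex` in Asymp.lean, with
`exists_nilpotent` in place of `not_isPermutable_perm`.
-/

set_option autoImplicit false

open Finset Filter Topology

namespace Pool.Agent.Lib.MP_c6e9f4_al.Nil

open Pool.Agent.Lib.MP_c6e9f4_al

/-- Using all primes up to `y` as moduli. -/
private theorem H2_exists_of_primorial {n k y : ℕ} (hk : 0 < k)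
    (hn : y ^ 2 * Nat.primeCounting y ≤ n) (hN : k ^ 3 ≤ primorial y) :
    ∃ H : Subgroup (Equiv.Perm (Fin n)), Group.IsNilpotent H ∧ ¬ IsPermutable H k := by
  classical
  refine exists_nilpotent (ι := {p // p ∈ Nat.primesLE y}) (fun p => (p : ℕ)) ?_ ?_ hk ?_ ?_
  · intro p
    exact (Nat.prime_of_mem_primesLE p.2).pos
  · intro p q hpq
    refine (Nat.coprime_primes (Nat.prime_of_mem_primesLE p.2) (Nat.prime_of_mem_primesLE q.2)).2 ?_
    exact fun h => hpq (Subtype.ext h)
  · refine le_trans ?_ hn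
    have h1 : ∑ i : {p // p ∈ Nat.primesLE y}, (i : ℕ) ^ 2 ≤
        ∑ _i : {p // p ∈ Nat.primesLE y}, y ^ 2 := by
      refine Finset.sum_le_sum fun i _ => ?_
      exact Nat.pow_le_pow_left (Nat.le_of_mem_primesLE i.2) 2
    refine h1.trans (le_of_eq ?_)
    rw [Finset.sum_const, smul_eq_mul, Finset.card_univ, Fintype.card_coe, mul_comm]
    congr 1
    simp
  · refine hN.trans (le_of_eq ?_)
    rw [primorial_eq_prod_primesLE]
    exact (Finset.prod_coe_sort (Nat.primesLE y) (fun p => p)).symm

theorem nilpotent_lower : ∀ᶠ n : ℕ in atTop, ∃ H : Subgroup (Equiv.Perm (Fin n)),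
    Group.IsNilpotent H ∧ Real.exp (1 / 8 * scale n) ≤ (permIndex H : ℝ) := by
  have hx : Tendsto (fun n => 0.6 * scale n) atTop atTop :=
    tendsto_scale.const_mul_atTop (by norm_num)
  have hlog : Tendsto (fun n : ℕ => Real.log n) atTop atTop :=
    Real.tendsto_log_atTop.comp tendsto_natCast_atTop_atTop
  filter_upwards [hx.eventually (Chebyshev.eventually_primeCounting_le (ε := 0.1) (by norm_num)),
    hx.eventually eventually_theta_ge, hx.eventually (eventually_ge_atTop 2),
    hlog.eventually (eventually_ge_atTop 8), eventually_gt_atTop 1] with n h1 h2 h3 h4 h5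
  have hn1 : (1 : ℝ) < n := by exact_mod_cast h5
  set L := scale n with hL
  set x := 0.6 * L with hxdef
  have hL3 : L ^ 3 = (n : ℝ) * Real.log n := scale_pow_three n
  have hL0 : 0 ≤ L := by
    have : (0 : ℝ) < 0.6 * L := by linarith
    linarith
  -- `log n ≤ 3 log x`
  have hlogx : Real.log n ≤ 3 * Real.log x := by
    rw [show (3 : ℝ) * Real.log x = Real.log (x ^ 3) by rw [Real.log_pow]; norm_num]
    apply Real.log_le_log (by linarith)
    have : x ^ 3 = 0.216 * ((n : ℝ) * Real.log n) := by
      rw [← hL3, hxdef]; ring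
    rw [this]
    nlinarith
  have hlogxpos : 0 < Real.log x := by linarith
  have hlog4 : Real.log 4 < 1.3864 := by
    have : Real.log 4 = 2 * Real.log 2 := by
      rw [show (4 : ℝ) = 2 ^ 2 by norm_num, Real.log_pow]; norm_num
    have h := Real.log_two_lt_d9
    linarith
  have hk0 : 0 < ⌈Real.exp (1 / 8 * L)⌉₊ := Nat.ceil_pos.2 (Real.exp_pos _)
  obtain ⟨H, hHnil, hnot⟩ : ∃ H : Subgroup (Equiv.Perm (Fin n)), Group.IsNilpotent H ∧
      ¬ IsPermutable H ⌈Real.exp (1 / 8 * L)⌉₊ := by
    refine H2_exists_of_primorial (y := ⌊x⌋₊) hk0 ?_ ?_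
    · have hfl : (⌊x⌋₊ : ℝ) ≤ x := Nat.floor_le (by linarith)
      have hreal : ((⌊x⌋₊ : ℝ)) ^ 2 * (Nat.primeCounting ⌊x⌋₊ : ℝ) ≤ n := by
        calc ((⌊x⌋₊ : ℝ)) ^ 2 * (Nat.primeCounting ⌊x⌋₊ : ℝ)
            ≤ x ^ 2 * ((Real.log 4 + 0.1) * x / Real.log x) := by
              apply mul_le_mul _ h1 (by positivity) (by positivity)
              exact pow_le_pow_left₀ (by positivity) hfl 2
          _ = (Real.log 4 + 0.1) * (x ^ 3) / Real.log x := by ring
          _ = (Real.log 4 + 0.1) * (0.216 * ((n : ℝ) * Real.log n)) / Real.log x := by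
              have : x ^ 3 = 0.216 * ((n : ℝ) * Real.log n) := by
                rw [← hL3, hxdef]; ring
              rw [this]
          _ ≤ n := by
              rw [div_le_iff₀ hlogxpos]
              have hn0 : (0 : ℝ) ≤ n := by linarith
              have hlogn : 0 ≤ Real.log n := by linarith
              have h6 : (Real.log 4 + 0.1) * (0.216 * ((n : ℝ) * Real.log n)) ≤
                  1.4864 * (0.216 * ((n : ℝ) * Real.log n)) := by
                apply mul_le_mul_of_nonneg_right (by linarith) (by positivity)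
              have h7 : (n : ℝ) * Real.log n ≤ n * (3 * Real.log x) :=
                mul_le_mul_of_nonneg_left hlogx hn0
              have h8 : 0 ≤ (n : ℝ) * Real.log x := by positivity
              nlinarith
      exact_mod_cast hreal
    · have hceil : (⌈Real.exp (1 / 8 * L)⌉₊ : ℝ) ≤ 2 * Real.exp (1 / 8 * L) := by
        have := Nat.ceil_lt_add_one (Real.exp_pos (1 / 8 * L)).le
        have h9 : (1 : ℝ) ≤ Real.exp (1 / 8 * L) := Real.one_le_exp (by positivity)
        linarith
      have hreal : (⌈Real.exp (1 / 8 * L)⌉₊ : ℝ) ^ 3 ≤ primorial ⌊x⌋₊ := by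
        calc (⌈Real.exp (1 / 8 * L)⌉₊ : ℝ) ^ 3 ≤ (2 * Real.exp (1 / 8 * L)) ^ 3 :=
              pow_le_pow_left₀ (by positivity) hceil 3
          _ = Real.exp (3 * Real.log 2 + 0.625 * x) := by
              rw [Real.exp_add, mul_pow, ← Real.exp_nat_mul]
              congr 1
              · rw [show (3 : ℝ) * Real.log 2 = ((3 : ℕ) : ℝ) * Real.log 2 by norm_num,
                  Real.exp_nat_mul, Real.exp_log (by norm_num)]
              · congr 1
                rw [hxdef]; push_cast; ring
          _ ≤ Real.exp (Chebyshev.theta x) := Real.exp_le_exp.2 (by linarith)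
          _ = primorial ⌊x⌋₊ := by
              rw [Chebyshev.theta_eq_log_primorial, Real.exp_log]
              exact_mod_cast primorial_pos _
      exact_mod_cast hreal
  have hlt := lt_permIndex hnot
  refine ⟨H, hHnil, ?_⟩
  calc Real.exp (1 / 8 * L) ≤ (⌈Real.exp (1 / 8 * L)⌉₊ : ℝ) := Nat.le_ceil _
    _ ≤ permIndex H := by exact_mod_cast hlt.le

end Pool.Agent.Lib.MP_c6e9f4_al.Nil
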