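import Mathlib

/-!
ROW N1 (90 lines). (1) exists_orbit: a nonabelian `p`-group acting faithfully has an orbit whose length is divisible by `p ^ 2`. Otherwise
every orbit has length 1 or `p` (orbit lengths are powers of `p`, `IsPGroup.card_orbit`), so every stabiliser has index 1 or `p`; a subgroup of
index `p` in a finite `p`-group is normal (`Subgroup.normal_of_index_eq_minFac_card` or maximal subgroups of nilpotent groups), the quotient has order
`p` and is commutative, so the commutator subgroup is contained in every stabiliser, hence acts trivially, hence is trivial.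
(2) orbit_dvd: for `N` normal, `Nat.card (orbit N x)` divides `Nat.card (orbit G x)`: with the stabiliser `S` of `x` in `G`,
`|orbit N x| = |N : N ⊓ S| = S.relIndex N = |N ⊔ S : S|` (N normal, second isomorphism theorem, or `Nat.card` computations), which divides
`|G : S|`. (Or: the `N`-orbits inside `orbit G x` all have the same length, as `G` permutes them transitively.)
-/

set_option autoImplicit false

namespace Pool.Agent.Lib.MP_c6e9f4_al.Nil

theorem exists_orbit (p : ℕ) [Fact p.Prime] (P X : Type) [Group P] [Finite P] [Fintype X]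
    [MulAction P X] [FaithfulSMul P X] (hP : IsPGroup p P) (hna : ¬ ∀ a b : P, a * b = b * a) :
    ∃ x : X, p ^ 2 ∣ Nat.card (MulAction.orbit P x) := by
  by_contra hcon
  push Not at hcon
  apply hna
  intro a b
  have hp : p.Prime := Fact.out
  apply FaithfulSMul.eq_of_smul_eq_smul (M := P) (α := X)
  intro x
  -- the stabiliser has index 1 or p
  have hfin : Finite (MulAction.orbit P x) := inferInstance
  obtain ⟨k, hk⟩ := hP.card_orbit x
  have hidx : (MulAction.stabilizer P x).index = p ^ k := by
    rw [MulAction.index_stabilizer, ← hk]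
    rfl
  have hk2 : k < 2 := by
    by_contra hlt
    push Not at hlt
    apply hcon x
    rw [hk]
    exact pow_dvd_pow p hlt
  have hcase : (MulAction.stabilizer P x).index = 1 ∨ (MulAction.stabilizer P x).index = p := by
    interval_cases k
    · left
      simpa using hidx
    · right
      simpa using hidx
  rcases hcase with h1 | h1
  · have htop : MulAction.stabilizer P x = ⊤ := Subgroup.index_eq_one.1 h1
    have hall : ∀ g : P, g • x = x := fun g => by
      have hg : g ∈ MulAction.stabilizer P x := by rw [htop]; exact Subgroup.mem_top g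
      exact hg
    rw [hall, hall]
  · obtain ⟨m, hm⟩ := IsPGroup.iff_card.1 hP
    have hm0 : m ≠ 0 := by
      rintro rfl
      have hd : (MulAction.stabilizer P x).index ∣ Nat.card P := Subgroup.index_dvd_card _
      rw [h1, hm, pow_zero] at hd
      exact hp.one_lt.ne' (Nat.dvd_one.1 hd)
    have hmin : (Nat.card P).minFac = p := by
      rw [hm, hp.pow_minFac hm0]
    have hn : (MulAction.stabilizer P x).Normal :=
      Subgroup.normal_of_index_eq_minFac_card (by rw [h1, hmin])
    have hq : Nat.card (P ⧸ MulAction.stabilizer P x) = p := h1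
    have hcyc : IsCyclic (P ⧸ MulAction.stabilizer P x) := isCyclic_of_prime_card hq
    obtain ⟨g, hg⟩ := hcyc.exists_generator
    have hcomm : ∀ u v : P ⧸ MulAction.stabilizer P x, u * v = v * u := by
      intro u v
      obtain ⟨i, rfl⟩ := Subgroup.mem_zpowers_iff.1 (hg u)
      obtain ⟨j, rfl⟩ := Subgroup.mem_zpowers_iff.1 (hg v)
      exact Commute.zpow_zpow_self g i j
    have hab : ((a * b : P) : P ⧸ MulAction.stabilizer P x) = ((b * a : P) : P ⧸ MulAction.stabilizer P x) := by
      rw [QuotientGroup.mk_mul, QuotientGroup.mk_mul]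
      exact hcomm _ _
    have hmem : (b * a)⁻¹ * (a * b) ∈ MulAction.stabilizer P x := QuotientGroup.eq.1 hab.symm
    rw [MulAction.mem_stabilizer_iff, mul_smul, inv_smul_eq_iff] at hmem
    exact hmem

theorem orbit_dvd (G X : Type) [Group G] [Finite G] [Fintype X] [MulAction G X] (N : Subgroup G)
    (hN : N.Normal) (x : X) :
    Nat.card (MulAction.orbit N x) ∣ Nat.card (MulAction.orbit G x) := by
  set S : Subgroup G := MulAction.stabilizer G x with hS
  have h1 : Nat.card (MulAction.orbit G x) = S.index := by
    rw [hS, MulAction.index_stabilizer]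
    rfl
  have h2 : Nat.card (MulAction.orbit N x) = S.relIndex N := by
    have h3 : MulAction.stabilizer N x = S.subgroupOf N := by
      ext g
      simp [hS, Subgroup.mem_subgroupOf, MulAction.mem_stabilizer_iff, Subgroup.smul_def]
    have h4 : S.relIndex N = (MulAction.stabilizer N x).index := by
      rw [h3]; rfl
    rw [h4, MulAction.index_stabilizer]
    rfl
  rw [h1, h2]
  have h5 : (S ⊓ N).relIndex N * N.relIndex (S ⊔ N) = (S ⊓ N).relIndex (S ⊔ N) :=
    Subgroup.relIndex_mul_relIndex _ _ _ inf_le_right le_sup_right
  have h6 : (S ⊓ N).relIndex S * S.relIndex (S ⊔ N) = (S ⊓ N).relIndex (S ⊔ N) :=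
    Subgroup.relIndex_mul_relIndex _ _ _ inf_le_left le_sup_left
  rw [Subgroup.inf_relIndex_right, Subgroup.relIndex_sup_right] at h5
  rw [Subgroup.inf_relIndex_left] at h6
  have h7 : N.relIndex S ≠ 0 := Subgroup.index_ne_zero_of_finite
  have h8 : S.relIndex N = S.relIndex (S ⊔ N) := by
    apply Nat.eq_of_mul_eq_mul_left (Nat.pos_of_ne_zero h7)
    rw [h6, ← h5, mul_comm]
  rw [h8]
  exact ⟨(S ⊔ N).index, (Subgroup.relIndex_mul_index le_sup_left).symm⟩

end Pool.Agent.Lib.MP_c6e9f4_al.Nil
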