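import Mathlib

/-!
ROW N3 (90 lines). If for every prime `p` of a finite set `S` the square `p ^ 2` divides the length of the orbit of `x p`, then
`∑ p ∈ S, p ^ 2 ≤ card X`.
Proof. Group the primes by the orbit `o p` (an element of `MulAction.orbitRel.Quotient G X`). For one orbit `w` with `S_w = {p ∈ S | o p = w}` nonempty:
`∑ p ∈ S_w, p ^ 2 ≤ ∏ p ∈ S_w, p ^ 2` (numbers `≥ 2`: sum `≤` product, induction, `a + b ≤ a * b`), and the product of the pairwise coprime numbers `p ^ 2`
divides the orbit length (`Finset.prod_dvd_of_coprime` or `Finset.prod_dvd_of_isRelPrime`), which is positive; so the sum is at most the orbit length. Sum over all orbits: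
`∑ w, |w| = card X` (`MulAction.selfEquivSigmaOrbits` or `MulAction.selfEquivSigmaOrbits'`). 
-/

set_option autoImplicit false

namespace Pool.Agent.Lib.MP_c6e9f4_al.Nil

private theorem N3_two_le_prod (T : Finset ℕ) (hT : ∀ p ∈ T, 2 ≤ p) (hne : T.Nonempty) :
    2 ≤ ∏ p ∈ T, p ^ 2 := by
  obtain ⟨a, ha⟩ := hne
  have h1 : a ^ 2 ∣ ∏ p ∈ T, p ^ 2 := Finset.dvd_prod_of_mem _ ha
  have h2 : 0 < ∏ p ∈ T, p ^ 2 := Finset.prod_pos fun p hp => by
    have := hT p hp
    positivity
  have h3 := Nat.le_of_dvd h2 h1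
  have h4 := hT a ha
  nlinarith

private theorem N3_sum_le_prod (T : Finset ℕ) (hT : ∀ p ∈ T, 2 ≤ p) :
    ∑ p ∈ T, p ^ 2 ≤ ∏ p ∈ T, p ^ 2 := by
  classical
  induction T using Finset.induction_on with
  | empty => simp
  | insert a T ha ih =>
    rw [Finset.sum_insert ha, Finset.prod_insert ha]
    have hT' : ∀ p ∈ T, 2 ≤ p := fun p hp => hT p (Finset.mem_insert_of_mem hp)
    have h1 := ih hT'
    have h2 : 2 ≤ a := hT a (Finset.mem_insert_self a T)
    rcases T.eq_empty_or_nonempty with h | h
    · subst h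
      simp
    · have h3 := N3_two_le_prod T hT' h
      have h4 : 2 ≤ a ^ 2 := by nlinarith
      nlinarith

theorem sum_sq_le (G X : Type) [Group G] [Finite G] [Fintype X] [MulAction G X] (S : Finset ℕ)
    (hS : ∀ p ∈ S, p.Prime) (x : ℕ → X)
    (h : ∀ p ∈ S, p ^ 2 ∣ Nat.card (MulAction.orbit G (x p))) :
    ∑ p ∈ S, p ^ 2 ≤ Fintype.card X := by
  classical
  have : Finite (MulAction.orbitRel.Quotient G X) := Quotient.finite _
  let _ : Fintype (MulAction.orbitRel.Quotient G X) := Fintype.ofFinite _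
  let o : ℕ → MulAction.orbitRel.Quotient G X := fun p => Quotient.mk'' (x p)
  have hcard : Fintype.card X = ∑ w : MulAction.orbitRel.Quotient G X, Nat.card w.orbit := by
    rw [← Nat.card_eq_fintype_card, Nat.card_congr (MulAction.selfEquivSigmaOrbits' G X),
      Nat.card_sigma]
  rw [hcard, ← Finset.sum_fiberwise S o (fun p => p ^ 2)]
  refine Finset.sum_le_sum fun w _ => ?_
  rcases (S.filter fun p => o p = w).eq_empty_or_nonempty with he | hne
  · rw [he]
    simp
  · have hw : ∀ p ∈ S.filter (fun p => o p = w), w.orbit = MulAction.orbit G (x p) := by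
      intro p hp
      rw [← (Finset.mem_filter.mp hp).2]
      exact MulAction.orbitRel.Quotient.orbit_mk (x p)
    have hd : ∏ p ∈ S.filter (fun p => o p = w), p ^ 2 ∣ Nat.card w.orbit := by
      refine Finset.prod_dvd_of_isRelPrime ?_ ?_
      · intro p hp q hq hpq
        have h1 := hS p (Finset.mem_filter.mp hp).1
        have h2 := hS q (Finset.mem_filter.mp hq).1
        exact Nat.coprime_iff_isRelPrime.mp (Nat.Coprime.pow 2 2 ((Nat.coprime_primes h1 h2).mpr hpq))
      · intro p hp
        rw [hw p hp]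
        exact h p (Finset.mem_filter.mp hp).1
    have hpos : 0 < Nat.card w.orbit := by
      obtain ⟨p, hp⟩ := hne
      have : Nonempty w.orbit := ⟨⟨x p, by rw [hw p hp]; exact MulAction.mem_orbit_self _⟩⟩
      exact Nat.card_pos
    exact (N3_sum_le_prod _ fun p hp => (hS p (Finset.mem_filter.mp hp).1).two_le).trans
      (Nat.le_of_dvd hpos hd)

end Pool.Agent.Lib.MP_c6e9f4_al.Nil
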