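import Pool.Agent.Lib.MP_c6e9f4_al.Nil.B2
import Pool.Agent.Lib.MP_c6e9f4_al.Nil.G1
import Pool.Agent.Lib.MP_c6e9f4_al.Nil.N1
import Pool.Agent.Lib.MP_c6e9f4_al.Nil.N3

/-!
ROW N4 (170 lines). Nilpotent subgroups.
Proof. `H` is finite nilpotent: all Sylow subgroups are normal (`Sylow.normal_of_...` / `isNilpotent_of_finite_tfae`) and
`Sylow.directProductOfNormal : (∀ p : (Nat.card H).primeFactors, ∀ P : Sylow p H, P) ≃* H`. Let `S` be the set of the primes `p` in
`(Nat.card H).primeFactors` such that the Sylow `p`-subgroup is not commutative. With `e` the inverse of this isomorphism: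
`f : H →* (∀ p : S, ∀ P : Sylow p H, P)` (components in `S`), and `g : H →* A`, `A` the product over the primes outside `S`, which is a commutative group
(make `A` a `CommGroup`, e.g. as the range, `CommGroup` structure from commutativity of all components). `permIndex_le_of_comm` gives
`permIndex H ≤ permIndex K`, `K := ∀ p : S, ∀ P : Sylow p H, P`, and `permIndex_le_of_DU` with `DU.pi`: for `p ∈ S` the (unique) Sylow `p`-subgroup `P`
is isomorphic to its image in `Perm (Fin n)`, a `p`-group, so `DU P (n ^ Nat.log p n)` by `DU_pgroup_perm` and `DU.of_injective`; `Sylow p H` has one element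
(`Sylow.unique_of_normal`), so the inner product is that group. So `permIndex H ≤ 4 ∏ p ∈ S, n ^ Nat.log p n`.
Sum of squares: for `p ∈ S` the Sylow subgroup `P` (acting on `Fin n`, faithfully) is not abelian; by `exists_orbit` there is `x p` with
`p ^ 2 ∣ card (orbit P (x p))`, which divides `card (orbit H (x p))` by `orbit_dvd`; apply `sum_sq_le` with `G := H`, `X := Fin n` (`x p := ⟨0, _⟩` for the other `p`).
-/

set_option autoImplicit false

namespace Pool.Agent.Lib.MP_c6e9f4_al.Nil

open Pool.Agent.Lib.MP_c6e9f4_al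

/-- a Sylow subgroup of a group of permutations, as an abstract group -/
private theorem N4_DU (n : ℕ) (hn : 1 ≤ n) (H : Subgroup (Equiv.Perm (Fin n))) (p : ℕ) [Fact p.Prime]
    (P : Subgroup H) (hP : IsPGroup p P) : DU P ((n : ℝ) ^ Nat.log p n) := by
  have h1 : IsPGroup p (P.map H.subtype) := hP.map H.subtype
  exact DU.of_injective (DU_pgroup_perm p n hn (P.map H.subtype) h1)
    (P.equivMapOfInjective H.subtype H.subtype_injective).toMonoidHom
    (P.equivMapOfInjective H.subtype H.subtype_injective).injective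

/-- splitting of a product of groups into a commutative part and the rest -/
private theorem N4_split {G ι : Type} [Group G] [Finite G] [Fintype ι] (C : ι → Type) [∀ i, Group (C i)]
    [∀ i, Finite (C i)] (e : G ≃* (∀ i, C i)) :
    permIndex G ≤ permIndex (∀ i : {i : ι // ¬ ∀ a b : C i, a * b = b * a}, C i.1) := by
  classical
  let _ : ∀ j : {i : ι // ∀ a b : C i, a * b = b * a}, CommGroup (C j.1) :=
    fun j => { (inferInstance : Group (C j.1)) with mul_comm := j.2 }
  let f : G →* (∀ i : {i : ι // ¬ ∀ a b : C i, a * b = b * a}, C i.1) :=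
    { toFun := fun x i => e x i.1
      map_one' := by
        funext i
        rw [map_one]
        rfl
      map_mul' := fun x y => by
        funext i
        rw [map_mul]
        rfl }
  let g : G →* (∀ j : {i : ι // ∀ a b : C i, a * b = b * a}, C j.1) :=
    { toFun := fun x i => e x i.1
      map_one' := by
        funext i
        rw [map_one]
        rfl
      map_mul' := fun x y => by
        funext i
        rw [map_mul]
        rfl }
  refine permIndex_le_of_comm f g ?_
  intro x hf hg
  have h1 : e x = 1 := by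
    funext i
    by_cases h : ∀ a b : C i, a * b = b * a
    · exact congrFun hg ⟨i, h⟩
    · exact congrFun hf ⟨i, h⟩
  exact e.map_eq_one_iff.1 h1

theorem permIndex_nilpotent (n : ℕ) (hn : 1 ≤ n) (H : Subgroup (Equiv.Perm (Fin n)))
    (hH : Group.IsNilpotent H) : ∃ S : Finset ℕ, (∀ p ∈ S, p.Prime) ∧ ∑ p ∈ S, p ^ 2 ≤ n ∧
      (permIndex H : ℝ) ≤ 4 * ∏ p ∈ S, (n : ℝ) ^ Nat.log p n := by
  classical
  obtain ⟨e⟩ := ((Group.isNilpotent_of_finite_tfae (G := H)).out 0 4).mp hH
  have hsyl := ((Group.isNilpotent_of_finite_tfae (G := H)).out 0 3).mp hH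
  let C : (Nat.card H).primeFactors → Type := fun p => ∀ P : Sylow (p : ℕ) H, (P : Subgroup H)
  haveI : ∀ p, Finite (C p) := fun p => inferInstanceAs (Finite (∀ P : Sylow (p : ℕ) H, (P : Subgroup H)))
  let I := {p : (Nat.card H).primeFactors // ¬ ∀ a b : C p, a * b = b * a}
  have hprime : ∀ i : I, ((i.1 : ℕ)).Prime := fun i => Nat.prime_of_mem_primeFactors i.1.2
  have h1 : permIndex H ≤ permIndex (∀ i : I, C i.1) := N4_split C e.symm
  -- the pieces
  have hinj : ∀ (p : ℕ) [Fact p.Prime] (P : Sylow p H), Function.Injective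
      (Pi.evalMonoidHom (fun P : Sylow p H => (P : Subgroup H)) P) := by
    intro p _ P a b hab
    letI := Sylow.unique_of_normal P (hsyl p inferInstance P)
    funext Q
    have : Q = P := Subsingleton.elim _ _
    subst this
    exact hab
  have h2 : ∀ i : I, DU (C i.1) ((n : ℝ) ^ Nat.log (i.1 : ℕ) n) := by
    intro i
    haveI : Fact ((i.1 : ℕ)).Prime := ⟨hprime i⟩
    let P : Sylow (i.1 : ℕ) H := default
    exact DU.of_injective (N4_DU n hn H (i.1 : ℕ) P P.isPGroup') _ (hinj (i.1 : ℕ) P)
  have h3 := permIndex_le_of_DU (DU.pi (fun i : I => C i.1) _ h2)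
  refine ⟨Finset.univ.map ⟨fun i : I => (i.1 : ℕ), fun i j hij => Subtype.ext (Subtype.ext hij)⟩, ?_, ?_, ?_⟩
  · intro p hp
    obtain ⟨i, -, rfl⟩ := Finset.mem_map.1 hp
    exact hprime i
  · have h4 : ∀ i : I, ∃ x : Fin n, (i.1 : ℕ) ^ 2 ∣ Nat.card (MulAction.orbit H x) := by
      intro i
      haveI : Fact ((i.1 : ℕ)).Prime := ⟨hprime i⟩
      let P : Sylow (i.1 : ℕ) H := default
      have h5 : ¬ ∀ a b : (P : Subgroup H), a * b = b * a := by
        intro h6
        apply i.2
        intro a b
        apply hinj (i.1 : ℕ) P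
        rw [map_mul, map_mul]
        exact h6 _ _
      obtain ⟨x, hx⟩ := exists_orbit (i.1 : ℕ) (P : Subgroup H) (Fin n) P.isPGroup' h5
      exact ⟨x, hx.trans (orbit_dvd H (Fin n) (P : Subgroup H) (hsyl _ inferInstance P) x)⟩
    choose x hx using h4
    let y : ℕ → Fin n := fun p => if h : ∃ i : I, (i.1 : ℕ) = p then x h.choose else ⟨0, hn⟩
    have h7 := sum_sq_le H (Fin n)
      (Finset.univ.map ⟨fun i : I => (i.1 : ℕ), fun i j hij => Subtype.ext (Subtype.ext hij)⟩) (by
        intro p hp
        obtain ⟨i, -, rfl⟩ := Finset.mem_map.1 hp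
        exact hprime i) y (by
        intro p hp
        obtain ⟨i, -, rfl⟩ := Finset.mem_map.1 hp
        have h8 : ∃ j : I, (j.1 : ℕ) = (i.1 : ℕ) := ⟨i, rfl⟩
        have h9 : y (i.1 : ℕ) = x h8.choose := dif_pos h8
        have h10 : h8.choose = i := Subtype.ext (Subtype.ext h8.choose_spec)
        show (i.1 : ℕ) ^ 2 ∣ Nat.card (MulAction.orbit H (y (i.1 : ℕ)))
        rw [h9, h10]
        exact hx i)
    simpa using h7
  · rw [Finset.prod_map]
    have h4 : (permIndex H : ℝ) ≤ permIndex (∀ i : I, C i.1) := by exact_mod_cast h1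
    exact h4.trans h3

end Pool.Agent.Lib.MP_c6e9f4_al.Nil
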