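import Pool.Agent.Lib.MP_c6e9f4_al.Nil.B1

/-!
ROW S1 (110 lines). Derived series tools.
* ds_family: `derivedSeries G m` is mapped by `f i` into `derivedSeries (K i) m = ⊥` (`map_derivedSeries_le_derivedSeries`).
* ds_ext: `f` maps `derivedSeries G a` into `derivedSeries K a = ⊥`, so `derivedSeries G a ≤ f.ker`; by induction on `j`:
  `derivedSeries G (a + j) ≤ (derivedSeries f.ker j).map f.ker.subtype` (commutators, `Subgroup.map_commutator`).
* ds_card: for a finite solvable group the derived series drops strictly until it is trivial, each proper step at least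
  halves the order: `Nat.card (derivedSeries G j) * 2 ^ j ≤ Nat.card G` as long as `derivedSeries G j ≠ ⊥`; so with `m = Nat.log 2 (Nat.card G)`:
  if `derivedSeries G m ≠ ⊥` its order is at least 2 and `2 ^ (m + 1) ≤ Nat.card G`, contradiction. (Strictness: if
  `derivedSeries G (j + 1) = derivedSeries G j` the series is constant from `j` on and equals `⊥` by solvability.)
* DU_of_derivedSeries: induction on `m`. `m = 0`: `⊤ = ⊥`, `DU.of_subsingleton`. Step: `DU.ext` for `Abelianization.of : H →* Abelianization H`, whose
  kernel is `commutator H` (`Abelianization.ker_of`), and `commutator H` is isomorphic to its image `K` in `Perm (Fin n)`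
  (`(commutator H).map H.subtype`), with `derivedSeries K m = ⊥` (it injects: `derivedSeries (commutator H) m` maps into
  `derivedSeries H (m + 1)`). `B ^ (m + 1) = B * B ^ m`.
-/

set_option autoImplicit false

namespace Pool.Agent.Lib.MP_c6e9f4_al.Nil

theorem ds_family {ι G : Type} [Group G] {K : ι → Type} [∀ i, Group (K i)] (f : ∀ i, G →* K i)
    (hf : ∀ g : G, (∀ i, f i g = 1) → g = 1) (m : ℕ) (h : ∀ i, derivedSeries (K i) m = ⊥) :
    derivedSeries G m = ⊥ := by
  rw [Subgroup.eq_bot_iff_forall]
  intro g hg
  refine hf g fun i => ?_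
  have h1 : f i g ∈ derivedSeries (K i) m :=
    map_derivedSeries_le_derivedSeries (f i) m (Subgroup.mem_map_of_mem _ hg)
  rw [h i] at h1
  exact Subgroup.mem_bot.1 h1

private theorem s1_shift {G : Type} [Group G] (N : Subgroup G) (a : ℕ) (h : derivedSeries G a ≤ N) (j : ℕ) :
    derivedSeries G (a + j) ≤ (derivedSeries N j).map N.subtype := by
  induction j with
  | zero =>
    rw [derivedSeries_zero, ← MonoidHom.range_eq_map, Subgroup.range_subtype]
    exact h
  | succ j ih =>
    rw [← add_assoc, derivedSeries_succ, derivedSeries_succ, Subgroup.map_commutator]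
    exact Subgroup.commutator_mono ih ih

theorem ds_ext {G K : Type} [Group G] [Group K] (f : G →* K) (a b : ℕ)
    (hK : derivedSeries K a = ⊥) (hN : derivedSeries f.ker b = ⊥) :
    derivedSeries G (a + b) = ⊥ := by
  have h1 : derivedSeries G a ≤ f.ker := by
    intro g hg
    have h2 : f g ∈ derivedSeries K a := map_derivedSeries_le_derivedSeries f a (Subgroup.mem_map_of_mem _ hg)
    rw [hK] at h2
    exact Subgroup.mem_bot.1 h2
  have h3 := s1_shift f.ker a h1 b
  rw [hN, Subgroup.map_bot] at h3
  exact le_bot_iff.1 h3

theorem ds_card (G : Type) [Group G] [Finite G] [Group.IsSolvable G] :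
    derivedSeries G (Nat.log 2 (Nat.card G)) = ⊥ := by
  have hlt : ∀ j, derivedSeries G j ≠ ⊥ → derivedSeries G (j + 1) < derivedSeries G j := by
    intro j hj
    rw [derivedSeries_succ]
    exact Group.IsSolvable.commutator_lt_of_ne_bot hj
  have key : ∀ j, derivedSeries G j ≠ ⊥ → Nat.card (derivedSeries G j) * 2 ^ j ≤ Nat.card G := by
    intro j
    induction j with
    | zero =>
      intro _
      rw [pow_zero, mul_one]
      exact Subgroup.card_le_card_group _
    | succ j ih =>
      intro hj
      have hj0 : derivedSeries G j ≠ ⊥ := by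
        intro h0
        apply hj
        exact le_bot_iff.1 (h0 ▸ derivedSeries_antitone G (Nat.le_succ j))
      have h1 := hlt j hj0
      have h2 : Nat.card (derivedSeries G (j + 1)) ∣ Nat.card (derivedSeries G j) :=
        Subgroup.card_dvd_of_le h1.le
      obtain ⟨c, hc⟩ := h2
      have hpos : 0 < Nat.card (derivedSeries G j) := Nat.card_pos
      have hc2 : 2 ≤ c := by
        by_contra hcc
        have hc' : c = 0 ∨ c = 1 := by omega
        rcases hc' with rfl | rfl
        · omega
        · rw [mul_one] at hc
          exact h1.ne (Subgroup.eq_of_le_of_card_ge h1.le hc.le)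
      calc Nat.card (derivedSeries G (j + 1)) * 2 ^ (j + 1)
          = (Nat.card (derivedSeries G (j + 1)) * 2) * 2 ^ j := by ring
        _ ≤ (Nat.card (derivedSeries G (j + 1)) * c) * 2 ^ j := by gcongr
        _ = Nat.card (derivedSeries G j) * 2 ^ j := by rw [← hc]
        _ ≤ Nat.card G := ih hj0
  by_contra h
  have h1 := key _ h
  have h2 : 2 ≤ Nat.card (derivedSeries G (Nat.log 2 (Nat.card G))) := by
    have h3 : Nat.card (derivedSeries G (Nat.log 2 (Nat.card G))) ≠ 1 := by
      intro h4
      exact h (Subgroup.eq_bot_of_card_eq _ h4)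
    have h5 : 0 < Nat.card (derivedSeries G (Nat.log 2 (Nat.card G))) := Nat.card_pos
    omega
  have h6 : 2 ^ (Nat.log 2 (Nat.card G) + 1) ≤ Nat.card G := by
    calc 2 ^ (Nat.log 2 (Nat.card G) + 1) = 2 * 2 ^ (Nat.log 2 (Nat.card G)) := by ring
      _ ≤ _ := Nat.mul_le_mul_right _ h2
      _ ≤ _ := h1
  have h7 : Nat.card G < 2 ^ (Nat.log 2 (Nat.card G) + 1) := Nat.lt_pow_succ_log_self (by norm_num) _
  omega

theorem DU_of_derivedSeries {n : ℕ} {B : ℝ}
    (hB : ∀ H : Subgroup (Equiv.Perm (Fin n)), DU (Abelianization H) B) :
    ∀ (m : ℕ) (H : Subgroup (Equiv.Perm (Fin n))), derivedSeries H m = ⊥ → DU H (B ^ m) := by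
  intro m
  induction m with
  | zero =>
    intro H hH
    rw [derivedSeries_zero] at hH
    have : Subsingleton H := by
      refine ⟨fun a b => ?_⟩
      have ha : a ∈ (⊥ : Subgroup H) := hH ▸ Subgroup.mem_top a
      have hb : b ∈ (⊥ : Subgroup H) := hH ▸ Subgroup.mem_top b
      rw [Subgroup.mem_bot.1 ha, Subgroup.mem_bot.1 hb]
    rw [pow_zero]
    exact DU.of_subsingleton H
  | succ m ih =>
    intro H hH
    rw [pow_succ']
    refine DU.ext (Abelianization.of : H →* Abelianization H) (hB H) ?_
    rw [Abelianization.ker_of]
    set K : Subgroup (Equiv.Perm (Fin n)) := (commutator H).map H.subtype with hK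
    have e : (commutator H) ≃* K := Subgroup.equivMapOfInjective (commutator H) H.subtype H.subtype_injective
    have h1 : derivedSeries (commutator H) m = ⊥ := by
      have h2 : ∀ j, (derivedSeries (commutator H) j).map (commutator H).subtype ≤ derivedSeries H (j + 1) := by
        intro j
        induction j with
        | zero =>
          rw [derivedSeries_zero, ← MonoidHom.range_eq_map, Subgroup.range_subtype, zero_add, derivedSeries_one]
        | succ j ihj =>
          rw [derivedSeries_succ, derivedSeries_succ H (j + 1), Subgroup.map_commutator]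
          exact Subgroup.commutator_mono ihj ihj
      have h3 := h2 m
      rw [hH, le_bot_iff, Subgroup.map_eq_bot_iff_of_injective _ (commutator H).subtype_injective] at h3
      exact h3
    have h4 : derivedSeries K m = ⊥ := by
      have h5 := map_derivedSeries_eq (f := e.toMonoidHom) e.surjective m
      rw [h1, Subgroup.map_bot] at h5
      exact h5.symm
    exact DU.of_injective (ih K h4) e.toMonoidHom e.injective

end Pool.Agent.Lib.MP_c6e9f4_al.Nil
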