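import Pool.Agent.Lib.MP_c6e9f4_al.Nil.S1
import Pool.Agent.Lib.MP_c6e9f4_al.Nil.P1
import Pool.Agent.Lib.MP_c6e9f4_al.Nil.T1

/-!
ROW T2 (120 lines). The derived length of a solvable permutation group with orbits of length at most `N` is at most
`L ^ 2 + 2 L`, `L = log2 N`.
Proof. Strong induction on `N`. For `x : X` let `O_x` be its orbit and `f x : G →* K x`, `K x := (MulAction.toPermHom G O_x).range`; by faithfulness the family is jointly
injective, so by `ds_family` it is enough to treat `K x` (solvable, finite, transitive and faithful on `O_x`, `card O_x ≤ N`). If `card O_x ≤ 1` it is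
trivial. Otherwise T1 gives `Y, Q, f` with `k := card Y ≥ 2`; `Q` is solvable (surjective image), primitive and faithful on `Y`, so by P1
`Nat.card Q ≤ k ^ (1 + a)`, `a := Nat.log 2 k`, and `k < 2 ^ (a + 1)` gives `Nat.card Q < 2 ^ ((a + 1) ^ 2)`, so `Nat.log 2 (Nat.card Q) ≤ a ^ 2 + 2 a` and
`derivedSeries Q (a ^ 2 + 2 a) = ⊥` by `ds_card` and `derivedSeries_antitone`. The kernel of `f` is solvable, acts faithfully on `O_x` with orbits of length
at most `N / k < N`, so by induction `derivedSeries f.ker (b ^ 2 + 2 b) = ⊥`, `b := Nat.log 2 (N / k)`. `ds_ext`; `a + b ≤ L` (as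
`2 ^ a ≤ k`, `2 ^ b ≤ N / k` if `N / k ≠ 0`, and `b = 0` otherwise), so `(a ^ 2 + 2 a) + (b ^ 2 + 2 b) ≤ L ^ 2 + 2 L`; `derivedSeries_antitone`.
-/

set_option autoImplicit false

namespace Pool.Agent.Lib.MP_c6e9f4_al.Nil

open MulAction

/-- the transitive case -/
private theorem dl_trans (N : ℕ)
    (ih : ∀ N' < N, ∀ (G X : Type) [Group G] [Finite G] [Group.IsSolvable G] [Fintype X]
      [MulAction G X] [FaithfulSMul G X], (∀ x : X, Nat.card (MulAction.orbit G x) ≤ N') →
      derivedSeries G (Nat.log 2 N' ^ 2 + 2 * Nat.log 2 N') = ⊥)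
    (G X : Type) [Group G] [Finite G] [Group.IsSolvable G] [Fintype X] [MulAction G X] [FaithfulSMul G X]
    [MulAction.IsPretransitive G X] (hN : Fintype.card X ≤ N) :
    derivedSeries G (Nat.log 2 N ^ 2 + 2 * Nat.log 2 N) = ⊥ := by
  rcases Nat.lt_or_ge (Fintype.card X) 2 with h1 | h2
  · have hs : Subsingleton X := Fintype.card_le_one_iff_subsingleton.1 (by omega)
    have hg : Subsingleton G := ⟨fun g g' => FaithfulSMul.eq_of_smul_eq_smul (α := X) fun x => Subsingleton.elim _ _⟩
    exact Subgroup.eq_bot_of_subsingleton _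
  · obtain ⟨Y, _, Q, f, hY, hsurj, hprim, horb⟩ := exists_prim G X h2
    have : Nonempty Y := Fintype.card_pos_iff.1 (by omega)
    have : Group.IsSolvable Q := Group.isSolvable_of_surjective hsurj
    have := hprim
    set k := Fintype.card Y with hk
    set a := Nat.log 2 k with ha
    have hQ : Nat.card Q ≤ k ^ (1 + a) := card_le_of_primitive Q Y
    have hka : k < 2 ^ (a + 1) := Nat.lt_pow_succ_log_self (by norm_num) k
    have hQ2 : Nat.card Q < 2 ^ ((a + 1) * (1 + a)) := by
      refine lt_of_le_of_lt hQ ?_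
      rw [pow_mul]
      exact Nat.pow_lt_pow_left hka (by omega)
    have hlogQ : Nat.log 2 (Nat.card Q) ≤ a ^ 2 + 2 * a := by
      have h3 := Nat.log_lt_of_lt_pow (Nat.card_pos (α := Q)).ne' hQ2
      have h4 : (a + 1) * (1 + a) = a ^ 2 + 2 * a + 1 := by ring
      omega
    have hdQ : derivedSeries Q (a ^ 2 + 2 * a) = ⊥ := by
      have h3 := derivedSeries_antitone Q hlogQ
      rw [ds_card Q] at h3
      exact le_bot_iff.1 h3
    obtain ⟨x0⟩ : Nonempty X := Fintype.card_pos_iff.1 (by omega)
    have hkN : k ≤ N := by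
      have h3 := horb x0
      have h4 : 1 ≤ Nat.card (MulAction.orbit f.ker x0) :=
        Nat.card_pos_iff.2 ⟨⟨⟨x0, MulAction.mem_orbit_self x0⟩⟩, inferInstance⟩
      nlinarith
    have hN0 : N / k < N := Nat.div_lt_self (by omega) hY
    have hker : derivedSeries f.ker (Nat.log 2 (N / k) ^ 2 + 2 * Nat.log 2 (N / k)) = ⊥ := by
      refine ih (N / k) hN0 f.ker X fun x => ?_
      rw [Nat.le_div_iff_mul_le (by omega)]
      exact (horb x).trans hN
    have hG := ds_ext f _ _ hdQ hker
    set b := Nat.log 2 (N / k) with hb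
    have hab : a + b ≤ Nat.log 2 N := by
      refine Nat.le_log_of_pow_le (by norm_num) ?_
      rw [pow_add]
      have h3 : 2 ^ a ≤ k := Nat.pow_log_le_self 2 (by omega)
      have h4 : 2 ^ b ≤ N / k := Nat.pow_log_le_self 2 (Nat.div_pos hkN (by omega)).ne'
      exact (Nat.mul_le_mul h3 h4).trans (Nat.mul_div_le N k)
    have hle : (a ^ 2 + 2 * a) + (b ^ 2 + 2 * b) ≤ Nat.log 2 N ^ 2 + 2 * Nat.log 2 N := by
      nlinarith [Nat.pow_le_pow_left hab 2, Nat.zero_le (a * b)]
    have h5 := derivedSeries_antitone G hle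
    rw [hG] at h5
    exact le_bot_iff.1 h5

theorem derived_length (N : ℕ) : ∀ (G X : Type) [Group G] [Finite G] [Group.IsSolvable G] [Fintype X]
    [MulAction G X] [FaithfulSMul G X], (∀ x : X, Nat.card (MulAction.orbit G x) ≤ N) →
    derivedSeries G (Nat.log 2 N ^ 2 + 2 * Nat.log 2 N) = ⊥ := by
  induction N using Nat.strong_induction_on with
  | _ N ih =>
    intro G X _ _ _ _ _ _ hN
    refine ds_family (ι := X) (K := fun x => (MulAction.toPermHom G (MulAction.orbit G x)).range)
      (fun x => (MulAction.toPermHom G (MulAction.orbit G x)).rangeRestrict) ?_ _ ?_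
    · intro g hg
      refine FaithfulSMul.eq_of_smul_eq_smul (α := X) fun x => ?_
      have h1 := hg x
      have h2 : MulAction.toPermHom G (MulAction.orbit G x) g = 1 := by
        have := congrArg Subtype.val h1
        simpa using this
      have h3 : (MulAction.toPermHom G (MulAction.orbit G x) g) ⟨x, MulAction.mem_orbit_self x⟩ =
          ⟨x, MulAction.mem_orbit_self x⟩ := by
        rw [h2]
        rfl
      have h4 := congrArg Subtype.val h3
      rw [one_smul]
      exact h4
    · intro x
      have : Group.IsSolvable (MulAction.toPermHom G (MulAction.orbit G x)).range :=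
        Group.isSolvable_of_surjective (MulAction.toPermHom G (MulAction.orbit G x)).rangeRestrict_surjective
      let _ : Fintype (MulAction.orbit G x) := Fintype.ofFinite _
      have : MulAction.IsPretransitive (MulAction.toPermHom G (MulAction.orbit G x)).range (MulAction.orbit G x) := by
        refine ⟨fun y z => ?_⟩
        obtain ⟨g, hg⟩ := MulAction.exists_smul_eq G y z
        exact ⟨⟨MulAction.toPermHom G (MulAction.orbit G x) g, ⟨g, rfl⟩⟩, hg⟩
      refine dl_trans N ih _ (MulAction.orbit G x) ?_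
      rw [← Nat.card_eq_fintype_card]
      exact hN x

end Pool.Agent.Lib.MP_c6e9f4_al.Nil
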