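import Pool.Agent.Lib.MP_c6e9f4_al.Nil.B2
import Pool.Agent.Lib.MP_c6e9f4_al.Nil.L2
import Pool.Agent.Lib.MP_c6e9f4_al.Nil.S1
import Pool.Agent.Lib.MP_c6e9f4_al.Nil.T2

/-!
ROW S3 (100 lines). Solvable subgroups, assembly.
* DU_solvable: `m := Nat.log 2 n ^ 2 + 2 * Nat.log 2 n`; `derivedSeries H m = ⊥` by T2 (`X := Fin n`, orbits have at most `n` elements); by `DU_of_derivedSeries` and L2:
  `DU H (exp (20 √n (log n)^2) ^ m)`, and `m ≤ 7 (log n)^2` for `n ≥ 2` (`Nat.log 2 n ≤ log n / log 2`, `log n ≥ log 2 > 0.69`), so the bound is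
  `exp (140 √n (log n)^4)` (`DU.mono`).
* permIndex_solvable: `DU.ext` for `QuotientGroup.mk' N : H →* H ⧸ N` with `DU.card (H ⧸ N)` (`Nat.card (H ⧸ N) = N.index`) and kernel `N`
  (`QuotientGroup.ker_mk'`), where `N` is isomorphic to the subgroup `N.map H.subtype` of `Perm (Fin n)` (`DU.of_injective`), solvable. Then
  `permIndex_le_of_DU`: factor 4 is absorbed as `√n (log n)^4 ≥ 0.3` for `n ≥ 2`.
-/

set_option autoImplicit false

namespace Pool.Agent.Lib.MP_c6e9f4_al.Nil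

open Pool.Agent.Lib.MP_c6e9f4_al

private lemma s3_log {n : ℕ} (hn : 2 ≤ n) : ((Nat.log 2 n ^ 2 + 2 * Nat.log 2 n : ℕ) : ℝ) ≤ 7 * Real.log n ^ 2 := by
  have h1 : 2 ^ (Nat.log 2 n) ≤ n := Nat.pow_log_le_self 2 (by omega)
  have h2 : ((2 : ℝ)) ^ (Nat.log 2 n) ≤ n := by exact_mod_cast h1
  have h3 : (Nat.log 2 n : ℝ) * Real.log 2 ≤ Real.log n := by
    rw [← Real.log_pow]
    exact Real.log_le_log (by positivity) h2
  have h4 := Real.log_two_gt_d9
  have hn2 : (2 : ℝ) ≤ n := by exact_mod_cast hn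
  have h5 : Real.log 2 ≤ Real.log n := Real.log_le_log (by norm_num) hn2
  have h6 : (0 : ℝ) ≤ (Nat.log 2 n : ℝ) := Nat.cast_nonneg _
  set a : ℝ := (Nat.log 2 n : ℝ) with ha
  set L : ℝ := Real.log n with hL
  have h7 : a ≤ 1.45 * L := by nlinarith
  have h8 : (0.69 : ℝ) ≤ L := by linarith
  push_cast
  rw [← ha]
  nlinarith

theorem DU_solvable : ∃ C : ℝ, 0 < C ∧ ∀ n : ℕ, 2 ≤ n → ∀ H : Subgroup (Equiv.Perm (Fin n)), Group.IsSolvable H →
    DU H (Real.exp (C * Real.sqrt n * Real.log n ^ 4)) := by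
  refine ⟨140, by norm_num, fun n hn H hH => ?_⟩
  have := hH
  have hds : derivedSeries H (Nat.log 2 n ^ 2 + 2 * Nat.log 2 n) = ⊥ := by
    apply derived_length n H (Fin n)
    intro x
    calc Nat.card (MulAction.orbit H x) ≤ Nat.card (Fin n) :=
          Nat.card_le_card_of_injective (fun y : MulAction.orbit H x => (y : Fin n)) Subtype.val_injective
      _ = n := by simp
  have h1 := DU_of_derivedSeries (DU_abelianization n hn) _ H hds
  refine h1.mono ?_
  rw [← Real.exp_nat_mul]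
  apply Real.exp_le_exp.mpr
  have h2 := s3_log hn
  have h3 : 0 ≤ 20 * Real.sqrt n * Real.log n ^ 2 := by positivity
  calc ((Nat.log 2 n ^ 2 + 2 * Nat.log 2 n : ℕ) : ℝ) * (20 * Real.sqrt n * Real.log n ^ 2) ≤
        (7 * Real.log n ^ 2) * (20 * Real.sqrt n * Real.log n ^ 2) := mul_le_mul_of_nonneg_right h2 h3
    _ = 140 * Real.sqrt n * Real.log n ^ 4 := by ring

private lemma s3_low {n : ℕ} (hn : 2 ≤ n) : 1 / 5 ≤ Real.sqrt n * Real.log n ^ 4 := by
  have h4 := Real.log_two_gt_d9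
  have hn2 : (2 : ℝ) ≤ n := by exact_mod_cast hn
  have h5 : Real.log 2 ≤ Real.log n := Real.log_le_log (by norm_num) hn2
  have h6 : (0.69 : ℝ) ≤ Real.log n := by linarith
  have h7 : (0.69 : ℝ) ^ 4 ≤ Real.log n ^ 4 := pow_le_pow_left₀ (by norm_num) h6 4
  have h8 : 1 ≤ Real.sqrt n := Real.one_le_sqrt.mpr (by linarith)
  have h9 : (1 / 5 : ℝ) ≤ (0.69 : ℝ) ^ 4 := by norm_num
  calc (1 / 5 : ℝ) ≤ 1 * Real.log n ^ 4 := by linarith
    _ ≤ Real.sqrt n * Real.log n ^ 4 := by gcongr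

theorem permIndex_solvable : ∃ C : ℝ, ∀ n : ℕ, 2 ≤ n → ∀ (H : Subgroup (Equiv.Perm (Fin n)))
    (N : Subgroup H), N.Normal → Group.IsSolvable N →
    (permIndex H : ℝ) ≤ N.index * Real.exp (C * Real.sqrt n * Real.log n ^ 4) := by
  obtain ⟨C, hC, hDU⟩ := DU_solvable
  refine ⟨C + 10, fun n hn H N hN hS => ?_⟩
  have := hN
  have := hS
  -- the normal subgroup as a permutation group
  have hmap : Group.IsSolvable (N.map H.subtype) :=
    Group.isSolvable_of_surjective (f := (H.subtype.subgroupMap N)) (MonoidHom.subgroupMap_surjective H.subtype N)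
  have h1 := hDU n hn (N.map H.subtype) hmap
  have h2 : DU N (Real.exp (C * Real.sqrt n * Real.log n ^ 4)) := by
    apply DU.of_injective h1 (H.subtype.subgroupMap N)
    intro x y hxy
    have := congrArg Subtype.val hxy
    simp only [MonoidHom.subgroupMap_apply_coe] at this
    exact Subtype.val_injective (Subtype.val_injective this)
  have h3 : DU (QuotientGroup.mk' N).ker (Real.exp (C * Real.sqrt n * Real.log n ^ 4)) := by
    rw [QuotientGroup.ker_mk']
    exact h2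
  have h4 := DU.ext (QuotientGroup.mk' N) (DU.card (H ⧸ N)) h3
  have h5 := permIndex_le_of_DU h4
  have h6 : Nat.card (H ⧸ N) = N.index := rfl
  rw [h6] at h5
  have h7 : (4 : ℝ) ≤ Real.exp (10 * (Real.sqrt n * Real.log n ^ 4)) := by
    have h8 := s3_low hn
    have h9 : (4 : ℝ) ≤ Real.exp 2 := by
      have h3 := Real.exp_one_gt_d9
      have h4 : Real.exp 2 = Real.exp 1 ^ 2 := by
        rw [← Real.exp_nat_mul]
        norm_num
      rw [h4]
      nlinarith
    exact h9.trans (Real.exp_le_exp.mpr (by linarith))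
  have h8 : Real.exp ((C + 10) * Real.sqrt n * Real.log n ^ 4) =
      Real.exp (10 * (Real.sqrt n * Real.log n ^ 4)) * Real.exp (C * Real.sqrt n * Real.log n ^ 4) := by
    rw [← Real.exp_add]
    apply congrArg
    ring
  rw [h8]
  calc (permIndex H : ℝ) ≤ 4 * (N.index * Real.exp (C * Real.sqrt n * Real.log n ^ 4)) := h5
    _ = N.index * (4 * Real.exp (C * Real.sqrt n * Real.log n ^ 4)) := by ring
    _ ≤ N.index * (Real.exp (10 * (Real.sqrt n * Real.log n ^ 4)) * Real.exp (C * Real.sqrt n * Real.log n ^ 4)) := by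
        gcongr

end Pool.Agent.Lib.MP_c6e9f4_al.Nil
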